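import Pool.Agent.Q102.RG.Forest

/-!
# The point arboricity of graphs of bounded reduced genus and large clique number
-/

set_option autoImplicit false
set_option linter.unusedSectionVars false

namespace Q102.RG

open SimpleGraph Classical Q127.Surf

variable {V : Type} [Fintype V]

theorem house_emb {G : SimpleGraph V} {P : V → Prop} (h : House G P) :
    ∃ e : Fin 5 → V, Function.Injective e ∧ (∀ a, P (e a)) ∧
      ∀ a b, G.Adj (e a) (e b) ↔ hou a b = true := by
  obtain ⟨u₁, u₂, u₃, w₁, w₂, p1, p2, p3, p4, p5, h12, h13, h23, hww, h1w, h2w, n12, n21, n31, n32,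
    e12, e21, e31, e32⟩ := h
  have a1 : ∀ a b, G.Adj (![u₁, u₂, u₃, w₁, w₂] a) (![u₁, u₂, u₃, w₁, w₂] b) ↔
      hou a b = true := by
    have t : ∀ {x y : V}, G.Adj x y → (G.Adj y x) := fun h => h.symm
    have n : ∀ {x y : V}, ¬ G.Adj x y → ¬ G.Adj y x := fun h h' => h h'.symm
    intro a b
    fin_cases a <;> fin_cases b <;>
      simp [hou, h12, h13, h23, hww, h1w, h2w, n12, n21, n31, n32, t h12, t h13, t h23, t hww,
        t h1w, t h2w, n n12, n n21, n n31, n n32]
  refine ⟨![u₁, u₂, u₃, w₁, w₂], ?_, ?_, a1⟩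
  · intro a b hab
    have s : ∀ {x y : V}, x ≠ y → y ≠ x := fun h => h.symm
    fin_cases a <;> fin_cases b <;> first
      | rfl
      | (exfalso
         simp only [Fin.zero_eta, Fin.mk_one, Fin.reduceFinMk, Matrix.cons_val_zero,
           Matrix.cons_val_one, Matrix.cons_val] at hab
         first
           | exact h12.ne hab | exact h13.ne hab | exact h23.ne hab | exact hww.ne hab
           | exact h1w.ne hab | exact h2w.ne hab | exact e12 hab | exact e21 hab
           | exact e31 hab | exact e32 hab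
           | exact h12.ne hab.symm | exact h13.ne hab.symm | exact h23.ne hab.symm
           | exact hww.ne hab.symm | exact h1w.ne hab.symm | exact h2w.ne hab.symm
           | exact e12 hab.symm | exact e21 hab.symm | exact e31 hab.symm
           | exact e32 hab.symm)
  · intro a
    fin_cases a <;> assumption

theorem isAdj_of {ι : Type} [Finite ι] {E : ι → Finset V} {G : SimpleGraph V}
    (h : AdjacencyIs E G) : IsAdj E G := by
  intro u v
  constructor
  · intro hadj
    refine ⟨hadj.ne, ?_⟩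
    have h1 := (h u v hadj.ne).1 hadj
    unfold mult at h1
    have h2 : Nonempty {i : ι // u ∈ E i ∧ v ∈ E i} := by
      by_contra hcon
      rw [not_nonempty_iff] at hcon
      rw [Nat.card_of_isEmpty] at h1
      exact absurd h1 (by norm_num)
    obtain ⟨i, hi⟩ := h2
    exact ⟨i, hi⟩
  · rintro ⟨hne, i, hi⟩
    by_contra hcon
    have h1 := (h u v hne).2 hcon
    unfold mult at h1
    haveI : Nonempty {i : ι // u ∈ E i ∧ v ∈ E i} := ⟨⟨i, hi⟩⟩
    exact absurd h1 (Nat.card_pos).ne'

theorem linear_of {ι : Type} [Finite ι] {E : ι → Finset V} {G : SimpleGraph V}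
    (h : AdjacencyIs E G) : Linear E := by
  intro i j u v hui hvi huj hvj hne
  have h1 := (h u v hne).1 ((isAdj_of h u v).2 ⟨hne, i, hui, hvi⟩)
  unfold mult at h1
  have h2 := (Nat.card_eq_one_iff_unique.1 h1).1
  have h3 := h2.elim (⟨i, hui, hvi⟩ : {i : ι // u ∈ E i ∧ v ∈ E i}) ⟨j, huj, hvj⟩
  exact congrArg Subtype.val h3

theorem sz_le {ι : Type} {E : ι → Finset V} {G : SimpleGraph V}
    (h : IsAdj E G) (W : Finset V) (i : ι) : sz E W i ≤ G.cliqueNum := by
  have h1 : G.IsClique (E i : Set V) := by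
    intro u hu v hv hne
    exact (h u v).2 ⟨hne, i, hu, hv⟩
  exact (Finset.card_le_card Finset.inter_subset_left).trans h1.card_le_cliqueNum

theorem nb_erase (G : SimpleGraph V) (W : Finset V) (v : V) : nb G (W.erase v) v ⊆ nb G W v := by
  intro w hw
  rw [mem_nb] at hw ⊢
  exact ⟨Finset.mem_of_mem_erase hw.1, hw.2⟩

theorem good_empty {G : SimpleGraph V} {K : Type} (c : V → K) : Good G c ∅ := by
  intro i u p _
  exact ⟨u, p.start_mem_support, fun h => absurd h.1 (Finset.notMem_empty _)⟩

/-- Partition into forests. -/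
theorem exists_forests (g : ℕ) {G : SimpleGraph V} (hred : HasReducedGenus G g)
    (hω : 310 * (g + 1) ≤ G.cliqueNum) :
    ∃ c : V → Fin (1 + G.cliqueNum / 2), Good G c Finset.univ := by
  obtain ⟨⟨ι, hfin, E, hE, ⟨⟨σ, hσ, hg⟩, -⟩⟩, -⟩ := hred
  haveI := hfin
  haveI : Fintype ι := Fintype.ofFinite ι
  set k := G.cliqueNum with hk
  set q := 1 + k / 2 with hq
  by_contra hnot
  -- a minimal counterexample
  obtain ⟨W, hW, hmin⟩ : ∃ W : Finset V, (¬ ∃ c : V → Fin q, Good G c W) ∧
      ∀ U, U ⊂ W → ∃ c : V → Fin q, Good G c U := by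
    have h1 : ∃ W : Finset V, ¬ ∃ c : V → Fin q, Good G c W := ⟨Finset.univ, hnot⟩
    obtain ⟨W, hW, hm⟩ := WellFounded.has_min (wellFounded_lt (α := Finset V))
      {W | ¬ ∃ c : V → Fin q, Good G c W} h1
    refine ⟨W, hW, fun U hU => ?_⟩
    by_contra hcon
    exact hm U hcon hU
  have hWne : W.Nonempty := by
    rw [Finset.nonempty_iff_ne_empty]
    rintro rfl
    exact hW ⟨fun _ => ⟨0, by omega⟩, good_empty _⟩
  have hdeg : ∀ v ∈ W, 2 * q ≤ (nb G W v).card := by
    intro v hv
    by_contra hcon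
    push Not at hcon
    obtain ⟨c, hc⟩ := hmin _ (Finset.erase_ssubset hv)
    have h1 : ∑ i, cnt G c (W.erase v) v i < 2 * q := by
      rw [sum_cnt]
      exact (Finset.card_le_card (nb_erase G W v)).trans_lt hcon
    obtain ⟨i, hi⟩ : ∃ i, cnt G c (W.erase v) v i < 2 := by
      by_contra hcon2
      push Not at hcon2
      have h2 : ∑ i : Fin q, 2 ≤ ∑ i, cnt G c (W.erase v) v i :=
        Finset.sum_le_sum fun i _ => hcon2 i
      rw [Finset.sum_const, Finset.card_univ, Fintype.card_fin, smul_eq_mul] at h2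
      omega
    have h3 := good_insert hc (Finset.notMem_erase v W) hi
    rw [Finset.insert_erase hv] at h3
    exact hW ⟨_, h3⟩
  have hadj := isAdj_of hE
  have hst := structure_thm (W := W) (k := k) g hω hadj (linear_of hE) hσ hg (sz_le hadj W) hWne
    (fun v hv => by have := hdeg v hv; omega)
  have hlow : ∀ v : V, (v ∈ W ∧ (nb G W v).card = k + 1) → v ∈ W ∧ (nb G W v).card = 2 * q := by
    rintro v ⟨h1, h2⟩
    have := hdeg v h1
    exact ⟨h1, by omega⟩
  rcases hst with h | h
  · obtain ⟨e, he, hP, ha⟩ := diamond_emb h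
    exact config_false hmin hW dia (dgB dia [0, 1, 2, 3]) (by decide) (by norm_num) e he
      (fun a => hlow _ (hP a)) ha (fun f hf => dia_ext2 f hf)
  · obtain ⟨e, he, hP, ha⟩ := house_emb h
    exact config_false hmin hW hou (dgB hou [0, 1, 2, 3, 4]) (by decide) (by norm_num) e he
      (fun a => hlow _ (hP a)) ha (fun f hf => hou_ext2 f hf)

end Q102.RG
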