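import Pool.Agent.Q102.RG.Euler

/-!
# Charges of the vertices of a linear hypergraph
-/

set_option autoImplicit false
set_option linter.unusedSectionVars false

namespace Q102.RG

open SimpleGraph Module Q127.Surf Classical

variable {V ι : Type} [Fintype V] [Fintype ι]

/-- The number of vertices of `W` in the hyperedge `i`. -/
noncomputable def sz (E : ι → Finset V) (W : Finset V) (i : ι) : ℕ := (E i ∩ W).card

/-- The hyperedges with at least two vertices in `W`. -/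
noncomputable def II (E : ι → Finset V) (W : Finset V) : Finset ι :=
  Finset.univ.filter fun i => 2 ≤ sz E W i

/-- The hyperedges at `v` with at least two vertices in `W`. -/
noncomputable def TT (E : ι → Finset V) (W : Finset V) (v : V) : Finset ι :=
  (II E W).filter fun i => v ∈ E i

/-- The neighbours of `v` in `W`. -/
noncomputable def nb (G : SimpleGraph V) (W : Finset V) (v : V) : Finset V :=
  W.filter fun w => G.Adj v w

/-- The cost of a hyperedge with `n` vertices. -/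
noncomputable def cost (n : ℕ) : ℚ := 1 - 3 / (2 * n)

/-- The total cost at a vertex. -/
noncomputable def CC (E : ι → Finset V) (W : Finset V) (v : V) : ℚ :=
  ∑ i ∈ TT E W v, cost (sz E W i)

/-- `G` is the adjacency graph of the hypergraph. -/
def IsAdj (E : ι → Finset V) (G : SimpleGraph V) : Prop :=
  ∀ u v, G.Adj u v ↔ u ≠ v ∧ ∃ i, u ∈ E i ∧ v ∈ E i

variable {E : ι → Finset V} {G : SimpleGraph V} {W : Finset V}

theorem mem_II {i : ι} : i ∈ II E W ↔ 2 ≤ sz E W i := by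
  unfold II
  simp

theorem mem_TT {v : V} {i : ι} : i ∈ TT E W v ↔ 2 ≤ sz E W i ∧ v ∈ E i := by
  unfold TT
  rw [Finset.mem_filter, mem_II]

theorem mem_nb {v w : V} : w ∈ nb G W v ↔ w ∈ W ∧ G.Adj v w := by
  unfold nb
  rw [Finset.mem_filter]

theorem two_le_sz {u v : V} {i : ι} (hu : u ∈ W) (hv : v ∈ W) (hui : u ∈ E i) (hvi : v ∈ E i)
    (huv : u ≠ v) : 2 ≤ sz E W i := by
  unfold sz
  have h : ({u, v} : Finset V) ⊆ E i ∩ W := by
    intro x hx
    rw [Finset.mem_insert, Finset.mem_singleton] at hx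
    rcases hx with rfl | rfl
    · exact Finset.mem_inter.2 ⟨hui, hu⟩
    · exact Finset.mem_inter.2 ⟨hvi, hv⟩
  have h2 := Finset.card_le_card h
  rwa [Finset.card_pair huv] at h2

theorem nb_eq (hG : IsAdj E G) {v : V} (hv : v ∈ W) :
    nb G W v = (TT E W v).biUnion fun i => (E i ∩ W).erase v := by
  ext w
  rw [mem_nb, Finset.mem_biUnion]
  constructor
  · rintro ⟨hw, hadj⟩
    obtain ⟨hne, i, hvi, hwi⟩ := (hG v w).1 hadj
    exact ⟨i, mem_TT.2 ⟨two_le_sz hv hw hvi hwi hne, hvi⟩,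
      Finset.mem_erase.2 ⟨hne.symm, Finset.mem_inter.2 ⟨hwi, hw⟩⟩⟩
  · rintro ⟨i, hi, hw⟩
    obtain ⟨hne, hw⟩ := Finset.mem_erase.1 hw
    obtain ⟨hwi, hwW⟩ := Finset.mem_inter.1 hw
    exact ⟨hwW, (hG v w).2 ⟨hne.symm, i, (mem_TT.1 hi).2, hwi⟩⟩

theorem disj_erase (hlin : Linear E) {v : V} {i j : ι} (hvi : v ∈ E i) (hvj : v ∈ E j)
    (hij : i ≠ j) : Disjoint ((E i ∩ W).erase v) ((E j ∩ W).erase v) := by
  refine Finset.disjoint_left.2 ?_
  intro w h1 h2
  obtain ⟨hne, h1⟩ := Finset.mem_erase.1 h1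
  obtain ⟨-, h2⟩ := Finset.mem_erase.1 h2
  exact hij (hlin i j v w hvi (Finset.mem_inter.1 h1).1 hvj (Finset.mem_inter.1 h2).1 hne.symm)

theorem card_erase {v : V} (hv : v ∈ W) {i : ι} (hi : v ∈ E i) :
    ((E i ∩ W).erase v).card = sz E W i - 1 :=
  Finset.card_erase_of_mem (Finset.mem_inter.2 ⟨hi, hv⟩)

theorem card_biUnion_erase (hlin : Linear E) {v : V} (hv : v ∈ W) (T : Finset ι)
    (hT : ∀ i ∈ T, v ∈ E i) :
    (T.biUnion fun i => (E i ∩ W).erase v).card = ∑ i ∈ T, (sz E W i - 1) := by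
  rw [Finset.card_biUnion]
  · exact Finset.sum_congr rfl fun i hi => card_erase hv (hT i hi)
  · intro i hi j hj hij
    exact disj_erase hlin (hT i hi) (hT j hj) hij

theorem card_nb (hG : IsAdj E G) (hlin : Linear E) {v : V} (hv : v ∈ W) :
    (nb G W v).card = ∑ i ∈ TT E W v, (sz E W i - 1) := by
  rw [nb_eq hG hv]
  exact card_biUnion_erase hlin hv _ fun i hi => (mem_TT.1 hi).2

/-! ### Costs -/

theorem cost_two : cost 2 = 1 / 4 := by norm_num [cost]

theorem cost_three : cost 3 = 1 / 2 := by norm_num [cost]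

theorem cost_mono {m n : ℕ} (hm : 1 ≤ m) (h : m ≤ n) : cost m ≤ cost n := by
  unfold cost
  have h1 : (0 : ℚ) < 2 * m := by positivity
  have h2 : (2 : ℚ) * m ≤ 2 * n := by
    have : (m : ℚ) ≤ n := by exact_mod_cast h
    linarith
  have := div_le_div_of_nonneg_left (by norm_num : (0 : ℚ) ≤ 3) h1 h2
  linarith

theorem cost_quarter {n : ℕ} (hn : 2 ≤ n) : 1 / 4 ≤ cost n := by
  rw [← cost_two]
  exact cost_mono (by norm_num) hn

theorem cost_half {n : ℕ} (hn : 3 ≤ n) : 1 / 2 ≤ cost n := by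
  rw [← cost_three]
  exact cost_mono (by norm_num) hn

theorem cost_four {n : ℕ} (hn : 4 ≤ n) : 5 / 8 ≤ cost n := by
  have : cost 4 = 5 / 8 := by norm_num [cost]
  rw [← this]
  exact cost_mono (by norm_num) hn

theorem cost_24 {n : ℕ} (hn : 24 ≤ n) : 15 / 16 ≤ cost n := by
  have : cost 24 = 15 / 16 := by norm_num [cost]
  rw [← this]
  exact cost_mono (by norm_num) hn

theorem cost_nonneg {n : ℕ} (hn : 2 ≤ n) : 0 ≤ cost n := by
  have := cost_quarter hn
  linarith

theorem cost_small {n : ℕ} (hn : 2 ≤ n) (hn' : n ≤ 3) : ((n - 1 : ℕ) : ℚ) = 4 * cost n := by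
  interval_cases n
  · rw [cost_two]; norm_num
  · rw [cost_three]; norm_num

theorem cost_lin {n : ℕ} (hn : 2 ≤ n) (hn' : n ≤ 23) : (1 / 25 : ℚ) * ((n - 1 : ℕ) : ℚ) ≤ cost n := by
  unfold cost
  interval_cases n <;> norm_num

theorem cost_sum_nonneg (T : Finset ι) (hT : ∀ i ∈ T, 2 ≤ sz E W i) :
    0 ≤ ∑ i ∈ T, cost (sz E W i) :=
  Finset.sum_nonneg fun i hi => cost_nonneg (hT i hi)

/-- A family with three further vertices costs at least `5/8`. -/
theorem cost_three_more (T : Finset ι) (hT : ∀ i ∈ T, 2 ≤ sz E W i)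
    (h3 : 3 ≤ ∑ i ∈ T, (sz E W i - 1)) : 5 / 8 ≤ ∑ i ∈ T, cost (sz E W i) := by
  by_cases h : ∃ i ∈ T, 4 ≤ sz E W i
  · obtain ⟨i, hi, h4⟩ := h
    refine (cost_four h4).trans ?_
    exact Finset.single_le_sum (f := fun i => cost (sz E W i))
      (fun j hj => cost_nonneg (hT j hj)) hi
  · push Not at h
    have h1 : ∑ i ∈ T, cost (sz E W i) = ∑ i ∈ T, (1 / 4 : ℚ) * ((sz E W i - 1 : ℕ) : ℚ) := by
      refine Finset.sum_congr rfl fun i hi => ?_
      rw [cost_small (hT i hi) (by have := h i hi; omega)]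
      ring
    rw [h1, ← Finset.mul_sum, ← Nat.cast_sum]
    have : (3 : ℚ) ≤ ((∑ i ∈ T, (sz E W i - 1) : ℕ) : ℚ) := by exact_mod_cast h3
    linarith

/-- The standard vertices: they lie in a hyperedge with `k` vertices and have exactly two further
neighbours. -/
def Std (E : ι → Finset V) (W : Finset V) (k : ℕ) (v : V) (F : ι) : Prop :=
  F ∈ TT E W v ∧ sz E W F = k ∧ ∑ i ∈ (TT E W v).erase F, (sz E W i - 1) = 2

theorem std_or {k : ℕ} (hk : 39 ≤ k) (hsz : ∀ i, sz E W i ≤ k) (hG : IsAdj E G)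
    (hlin : Linear E) {v : V} (hv : v ∈ W) (hdeg : k + 1 ≤ (nb G W v).card) :
    (∃ F, Std E W k v F) ∨ 3 / 2 + 1 / 16 ≤ CC E W v := by
  rw [card_nb hG hlin hv] at hdeg
  have hT : ∀ i ∈ TT E W v, 2 ≤ sz E W i := fun i hi => (mem_TT.1 hi).1
  by_cases h : ∃ F ∈ TT E W v, 24 ≤ sz E W F
  · obtain ⟨F, hF, h24⟩ := h
    have h1 := Finset.add_sum_erase (TT E W v) (fun i => sz E W i - 1) hF
    have h2 := Finset.add_sum_erase (TT E W v) (fun i => cost (sz E W i)) hF
    have h3 := hsz F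
    by_cases hR : 3 ≤ ∑ i ∈ (TT E W v).erase F, (sz E W i - 1)
    · right
      have h4 := cost_three_more (E := E) (W := W) _
        (fun i hi => hT i (Finset.mem_of_mem_erase hi)) hR
      have h5 := cost_24 h24
      unfold CC
      linarith
    · left
      exact ⟨F, hF, by omega, by omega⟩
  · right
    push Not at h
    have h1 : (1 / 25 : ℚ) * ((∑ i ∈ TT E W v, (sz E W i - 1) : ℕ) : ℚ) ≤ CC E W v := by
      unfold CC
      rw [Nat.cast_sum, Finset.mul_sum]
      refine Finset.sum_le_sum fun i hi => ?_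
      exact cost_lin (hT i hi) (by have := h i hi; omega)
    have h2 : (40 : ℚ) ≤ ((∑ i ∈ TT E W v, (sz E W i - 1) : ℕ) : ℚ) := by
      exact_mod_cast (by omega : 40 ≤ ∑ i ∈ TT E W v, (sz E W i - 1))
    linarith

theorem std_le_three {k : ℕ} {v : V} {F : ι} (h : Std E W k v F) {i : ι} (hi : i ∈ TT E W v)
    (hne : i ≠ F) : sz E W i ≤ 3 := by
  have h1 := Finset.single_le_sum (f := fun i => sz E W i - 1) (fun j _ => Nat.zero_le _)
    (Finset.mem_erase.2 ⟨hne, hi⟩)
  have h2 := h.2.2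
  omega

theorem std_cost {k : ℕ} (hk : 2 ≤ k) {v : V} {F : ι} (h : Std E W k v F) :
    CC E W v = 3 / 2 - 3 / (2 * k) := by
  unfold CC
  rw [← Finset.add_sum_erase (TT E W v) (fun i => cost (sz E W i)) h.1]
  have h1 : ∑ i ∈ (TT E W v).erase F, cost (sz E W i)
      = ∑ i ∈ (TT E W v).erase F, (1 / 4 : ℚ) * ((sz E W i - 1 : ℕ) : ℚ) := by
    refine Finset.sum_congr rfl fun i hi => ?_
    obtain ⟨hne, hi⟩ := Finset.mem_erase.1 hi
    rw [cost_small (mem_TT.1 hi).1 (std_le_three h hi hne)]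
    ring
  rw [h1, ← Finset.mul_sum, ← Nat.cast_sum, h.2.2, h.2.1]
  unfold cost
  ring

/-- The sum of the costs. -/
theorem sum_CC : ∑ v ∈ W, CC E W v = ∑ i ∈ II E W, ((sz E W i : ℚ) - 3 / 2) := by
  unfold CC TT
  have h1 : ∀ v ∈ W, ∑ i ∈ (II E W).filter (fun i => v ∈ E i), cost (sz E W i)
      = ∑ i ∈ II E W, if v ∈ E i then cost (sz E W i) else 0 := by
    intro v _
    rw [Finset.sum_filter]
  rw [Finset.sum_congr rfl h1, Finset.sum_comm]
  refine Finset.sum_congr rfl fun i hi => ?_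
  rw [← Finset.sum_filter, Finset.sum_const, nsmul_eq_mul]
  have h2 : W.filter (fun v => v ∈ E i) = E i ∩ W := by
    rw [Finset.inter_comm, ← Finset.filter_mem_eq_inter]
  rw [h2]
  have h3 : (2 : ℚ) ≤ (sz E W i : ℚ) := by exact_mod_cast mem_II.1 hi
  change (sz E W i : ℚ) * cost (sz E W i) = _
  unfold cost
  field_simp

theorem sum_CC_le (hlin : Linear E) {σ : Equiv.Perm (incidence E).Dart}
    (hσ : IsRotation (incidence E) σ) (g : ℕ) (hg : GenusAtMost (incidence E) σ g)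
    (hW : W.Nonempty) : ∑ v ∈ W, CC E W v ≤ 3 / 2 * W.card + 3 * g := by
  have h := euler_linear hlin hσ g hg W (II E W) hW
  rw [sum_CC, Finset.sum_sub_distrib, Finset.sum_const, nsmul_eq_mul]
  have h1 : ((inc E W (II E W) : ℕ) : ℚ) = ∑ i ∈ II E W, (sz E W i : ℚ) := by
    unfold inc sz
    push_cast
    rfl
  rw [← h1]
  have h2 : (2 : ℚ) * (inc E W (II E W) : ℚ) + 3 ≤ 3 * (W.card + (II E W).card) + 6 * g := by
    exact_mod_cast h
  linarith

end Q102.RG
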