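import Pool.Agent.Q102.RG.Extra

/-!
# The counting argument
-/

set_option autoImplicit false
set_option linter.unusedSectionVars false

namespace Q102.RG

open SimpleGraph Module Q127.Surf Classical

variable {V ι : Type} [Fintype V] [Fintype ι]
variable {E : ι → Finset V} {G : SimpleGraph V} {W : Finset V} {k : ℕ} {F : V → ι}

/-- The number of extra adjacencies between the standard vertices of full hyperedges. -/
theorem pairs_le (hG : IsAdj E G) (hlin : Linear E) (hk : 4 ≤ k) {A : Finset V}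
    (hA : ∀ a ∈ A, a ∈ W ∧ Std E W k a (F a)) {N : Finset ι} (hN : ∀ i ∈ N, sz E W i = k)
    (hN3 : ∀ i ∈ N, 3 ≤ (E i ∩ A).card) (hAN : ∀ a ∈ A, F a ∈ N)
    {σ : Equiv.Perm (incidence E).Dart}
    (hσ : IsRotation (incidence E) σ) (g : ℕ) (hg : GenusAtMost (incidence E) σ g)
    (hD : ¬ Diamond G (fun v => v ∈ W ∧ (nb G W v).card = k + 1))
    (hH : ¬ House G (fun v => v ∈ W ∧ (nb G W v).card = k + 1)) :
    ∑ a ∈ A, (ex E G W F a ∩ A).card ≤ 6 * N.card + 12 * g := by
  rcases A.eq_empty_or_nonempty with hemp | hne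
  · rw [hemp, Finset.sum_empty]
    exact Nat.zero_le _
  set J : Finset ι := Finset.univ.filter fun j => j ∉ N ∧ 2 ≤ (E j ∩ A).card with hJ
  have hAN' : ∀ a ∈ A, ∀ i ∈ N, a ∈ E i → i = F a := fun a ha i hi hai =>
    std_unique hk (hA a ha).2 (hN i hi) hai
  have hNJ : Disjoint N J := by
    refine Finset.disjoint_left.2 fun i hi hj => ?_
    exact (Finset.mem_filter.1 hj).2.1 hi
  have heul := euler_inc hσ g hg A (N ∪ J) J hne Finset.subset_union_right
    (fun z hz h0 => cyc_three hG hlin hAN' (no_diamond hG hlin hk hA hN hN3 hD)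
      (no_house hG hlin hk hA hN hN3 hD hH) hz h0)
  have h1 : inc E A (N ∪ J) = inc E A N + inc E A J := by
    unfold inc
    exact Finset.sum_union hNJ
  have h2 : inc E A N = A.card := by
    rw [← sum_card_comm, Finset.card_eq_sum_ones]
    refine Finset.sum_congr rfl fun a ha => ?_
    have h3 : N.filter (fun i => a ∈ E i) = {F a} := by
      ext i
      rw [Finset.mem_filter, Finset.mem_singleton]
      constructor
      · rintro ⟨h4, h5⟩
        exact hAN' a ha i h4 h5
      · rintro rfl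
        exact ⟨hAN a ha, (mem_TT.1 (hA a ha).2.1).2⟩
    rw [h3, Finset.card_singleton]
  have h3 : (N ∪ J).card = N.card + J.card := Finset.card_union_of_disjoint hNJ
  -- pairs
  have h4 : ∀ a ∈ A, (ex E G W F a ∩ A).card ≤
      ∑ j ∈ J, if a ∈ E j then (E j ∩ A).card - 1 else 0 := by
    intro a ha
    rw [← Finset.sum_filter]
    have h5 : ex E G W F a ∩ A ⊆
        (J.filter fun j => a ∈ E j).biUnion fun j => (E j ∩ A).erase a := by
      intro b hb
      obtain ⟨hb, hbA⟩ := Finset.mem_inter.1 hb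
      obtain ⟨i, hiF, hai, hbi, -, h3⟩ := ex_edge hG (hA a ha).1 (hA a ha).2 hb
      have hab : b ≠ a := (mem_ex.1 hb).2.1.ne.symm
      have hcard : 2 ≤ (E i ∩ A).card := two_le_sz ha hbA hai hbi hab.symm
      have hiN : i ∉ N := fun h => by
        have := hN i h
        omega
      exact Finset.mem_biUnion.2 ⟨i, Finset.mem_filter.2 ⟨Finset.mem_filter.2
        ⟨Finset.mem_univ _, hiN, hcard⟩, hai⟩,
        Finset.mem_erase.2 ⟨hab, Finset.mem_inter.2 ⟨hbi, hbA⟩⟩⟩
    refine (Finset.card_le_card h5).trans (Finset.card_biUnion_le.trans ?_)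
    refine Finset.sum_le_sum fun j hj => ?_
    rw [Finset.card_erase_of_mem (Finset.mem_inter.2 ⟨(Finset.mem_filter.1 hj).2, ha⟩)]
  have h5 : ∑ a ∈ A, (ex E G W F a ∩ A).card ≤
      ∑ j ∈ J, (E j ∩ A).card * ((E j ∩ A).card - 1) := by
    refine (Finset.sum_le_sum h4).trans ?_
    rw [Finset.sum_comm]
    refine Finset.sum_le_sum fun j _ => ?_
    rw [← Finset.sum_filter, Finset.sum_const, smul_eq_mul, Finset.filter_mem_eq_inter,
      Finset.inter_comm]
  have h6 : ∀ j ∈ J, (E j ∩ A).card * ((E j ∩ A).card - 1) + 6 = 4 * (E j ∩ A).card := by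
    intro j hj
    obtain ⟨-, hjN, hj2⟩ := Finset.mem_filter.1 hj
    have hj3 : (E j ∩ A).card ≤ 3 := by
      obtain ⟨a, ha⟩ := Finset.card_pos.1 (by omega : 0 < (E j ∩ A).card)
      obtain ⟨haj, haA⟩ := Finset.mem_inter.1 ha
      have hsub : E j ∩ A ⊆ E j ∩ W := by
        intro x hx
        obtain ⟨hx1, hx2⟩ := Finset.mem_inter.1 hx
        exact Finset.mem_inter.2 ⟨hx1, (hA x hx2).1⟩
      have h7 := Finset.card_le_card hsub
      have h8 : sz E W j ≤ 3 := by
        refine std_le_three (hA a haA).2 (mem_TT.2 ⟨hj2.trans h7, haj⟩) ?_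
        rintro rfl
        exact hjN (hAN a haA)
      exact h7.trans h8
    generalize (E j ∩ A).card = m at hj2 hj3
    interval_cases m <;> rfl
  have h7 : ∑ j ∈ J, (E j ∩ A).card * ((E j ∩ A).card - 1) + 6 * J.card = 4 * inc E A J := by
    unfold inc
    rw [Finset.mul_sum, ← Finset.sum_congr rfl h6, Finset.sum_add_distrib, Finset.sum_const,
      smul_eq_mul, mul_comm J.card]
  omega

/-- **The structure theorem.** -/
theorem structure_thm (g : ℕ) (hk : 310 * (g + 1) ≤ k) (hG : IsAdj E G) (hlin : Linear E)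
    {σ : Equiv.Perm (incidence E).Dart}
    (hσ : IsRotation (incidence E) σ) (hg : GenusAtMost (incidence E) σ g)
    (hsz : ∀ i, sz E W i ≤ k) (hW : W.Nonempty) (hdeg : ∀ v ∈ W, k + 1 ≤ (nb G W v).card) :
    Diamond G (fun v => v ∈ W ∧ (nb G W v).card = k + 1) ∨
      House G (fun v => v ∈ W ∧ (nb G W v).card = k + 1) := by
  by_contra hcon
  push Not at hcon
  obtain ⟨hD, hH⟩ := hcon
  have hk4 : 4 ≤ k := by omega
  have hne : Nonempty ι := by
    obtain ⟨v, hv⟩ := hW
    have h1 := hdeg v hv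
    rw [card_nb hG hlin hv] at h1
    by_contra hemp
    rw [not_nonempty_iff] at hemp
    have h2 : TT E W v = ∅ := Finset.eq_empty_of_isEmpty _
    rw [h2, Finset.sum_empty] at h1
    omega
  have hF : ∀ v, ∃ F, (∃ F', Std E W k v F') → Std E W k v F := by
    intro v
    by_cases h : ∃ F', Std E W k v F'
    · obtain ⟨F, hF⟩ := h
      exact ⟨F, fun _ => hF⟩
    · exact ⟨Classical.arbitrary ι, fun h' => absurd h' h⟩
  choose F hF using hF
  set A := W.filter fun v => ∃ F', Std E W k v F' with hAdef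
  set B := W.filter fun v => ¬ ∃ F', Std E W k v F' with hBdef
  have hA : ∀ a ∈ A, a ∈ W ∧ Std E W k a (F a) := fun a ha =>
    ⟨(Finset.mem_filter.1 ha).1, hF a (Finset.mem_filter.1 ha).2⟩
  have hB : ∀ b ∈ B, b ∈ W ∧ 3 / 2 + 1 / 16 ≤ CC E W b := by
    intro b hb
    obtain ⟨hbW, hn⟩ := Finset.mem_filter.1 hb
    refine ⟨hbW, ?_⟩
    rcases std_or (by omega : 39 ≤ k) hsz hG hlin hbW (hdeg b hbW) with h | h
    · exact absurd h hn
    · exact h
  have hAB : Disjoint A B := Finset.disjoint_filter_filter_not _ _ _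
  have hABW : A ∪ B = W := Finset.filter_union_filter_not_eq _ _
  have hcardW : W.card = A.card + B.card := by
    rw [← hABW, Finset.card_union_of_disjoint hAB]
  set N := A.image F with hNdef
  have hN : ∀ i ∈ N, sz E W i = k := by
    intro i hi
    obtain ⟨a, ha, rfl⟩ := Finset.mem_image.1 hi
    exact (hA a ha).2.2.1
  have hFN : ∀ a ∈ A, F a ∈ N := fun a ha => Finset.mem_image_of_mem _ ha
  -- (1) the total charge
  have c1 := sum_CC_le hlin hσ g hg hW
  have c2 : ∑ v ∈ W, CC E W v = ∑ v ∈ A, CC E W v + ∑ v ∈ B, CC E W v := by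
    rw [← Finset.sum_union hAB, hABW]
  have hkQ : (0 : ℚ) < k := by
    have : 0 < k := by omega
    exact_mod_cast this
  have c3 : ∑ v ∈ A, CC E W v = A.card * (3 / 2 - 3 / (2 * k)) := by
    rw [Finset.sum_congr rfl (fun a ha => std_cost (by omega) (hA a ha).2), Finset.sum_const,
      nsmul_eq_mul]
  -- the vertices of `A` in the hyperedges of `N`
  have c4 : ∑ i ∈ N, (E i ∩ A).card = A.card := by
    change inc E A N = A.card
    rw [← sum_card_comm, Finset.card_eq_sum_ones A]
    refine Finset.sum_congr rfl fun a ha => ?_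
    have h3 : N.filter (fun i => a ∈ E i) = {F a} := by
      ext i
      rw [Finset.mem_filter, Finset.mem_singleton]
      constructor
      · rintro ⟨h4, h5⟩
        exact std_unique hk4 (hA a ha).2 (hN i h4) h5
      · rintro rfl
        exact ⟨hFN a ha, (mem_TT.1 (hA a ha).2.1).2⟩
    rw [h3, Finset.card_singleton]
  have c5 : ∑ i ∈ N, (E i ∩ B).card + A.card = k * N.card := by
    rw [← c4, ← Finset.sum_add_distrib]
    have h1 : ∀ i ∈ N, (E i ∩ B).card + (E i ∩ A).card = k := by
      intro i hi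
      rw [← hN i hi, add_comm]
      unfold sz
      rw [← hABW, Finset.inter_union_distrib_left, Finset.card_union_of_disjoint]
      exact Finset.disjoint_of_subset_left Finset.inter_subset_right
        (Finset.disjoint_of_subset_right Finset.inter_subset_right hAB)
    rw [Finset.sum_congr rfl h1, Finset.sum_const, smul_eq_mul, mul_comm]
  have c6 : (A.card : ℚ) * (3 / (2 * k)) ≤ 3 / 2 * N.card := by
    have h1 : A.card ≤ k * N.card := by omega
    have h2 : (A.card : ℚ) ≤ k * N.card := by exact_mod_cast h1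
    calc (A.card : ℚ) * (3 / (2 * k)) ≤ (k * N.card) * (3 / (2 * k)) :=
          mul_le_mul_of_nonneg_right h2 (by positivity)
      _ = 3 / 2 * N.card := by
          field_simp
  set D : ℚ := ∑ v ∈ B, CC E W v - 3 / 2 * B.card with hDdef
  have d1 : D ≤ 3 * g + 3 / 2 * N.card := by
    have h1 : (W.card : ℚ) = A.card + B.card := by exact_mod_cast hcardW
    rw [c2, c3, h1] at c1
    rw [hDdef]
    linarith
  have d2 : (B.card : ℚ) ≤ 16 * D := by
    have h1 : (B.card : ℚ) * (3 / 2 + 1 / 16) ≤ ∑ v ∈ B, CC E W v := by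
      rw [← nsmul_eq_mul]
      exact Finset.card_nsmul_le_sum _ _ _ fun b hb => (hB b hb).2
    rw [hDdef]
    linarith
  have d3 : ∑ v ∈ B, CC E W v ≤ 25 * D := by
    have : ∑ v ∈ B, CC E W v = D + 3 / 2 * B.card := by rw [hDdef]; ring
    rw [this]
    linarith
  -- (2) extra neighbours in `B`
  have e1 : ((∑ a ∈ A, (ex E G W F a ∩ B).card : ℕ) : ℚ) ≤ 100 * D := by
    have h1 : ∑ a ∈ A, (ex E G W F a ∩ B).card
        = ∑ b ∈ B, (A.filter fun a => b ∈ ex E G W F a).card := by
      refine Eq.trans (Finset.sum_congr rfl fun a _ => ?_)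
        (swap_count A B (fun a b => b ∈ ex E G W F a))
      congr 1
      ext x
      constructor
      · intro h
        exact Finset.mem_filter.2 ⟨(Finset.mem_inter.1 h).2, (Finset.mem_inter.1 h).1⟩
      · intro h
        exact Finset.mem_inter.2 ⟨(Finset.mem_filter.1 h).2, (Finset.mem_filter.1 h).1⟩
    rw [h1, Nat.cast_sum]
    calc ∑ b ∈ B, ((A.filter fun a => b ∈ ex E G W F a).card : ℚ) ≤ ∑ b ∈ B, 4 * CC E W b :=
          Finset.sum_le_sum fun b hb => count_ex hG A hA (hB b hb).1
      _ = 4 * ∑ b ∈ B, CC E W b := by rw [Finset.mul_sum]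
      _ ≤ 100 * D := by linarith
  have e2 : ((∑ i ∈ N, (E i ∩ B).card : ℕ) : ℚ) ≤ 50 * D := by
    have h1 : ∑ i ∈ N, (E i ∩ B).card = ∑ b ∈ B, (N.filter fun i => b ∈ E i).card := by
      rw [sum_card_comm]
      rfl
    rw [h1, Nat.cast_sum]
    calc ∑ b ∈ B, ((N.filter fun i => b ∈ E i).card : ℚ) ≤ ∑ b ∈ B, 2 * CC E W b :=
          Finset.sum_le_sum fun b _ => count_big (by omega) N hN
      _ = 2 * ∑ b ∈ B, CC E W b := by rw [Finset.mul_sum]
      _ ≤ 50 * D := by linarith
  -- (3) the full hyperedges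
  set N' := N.filter fun i => 3 ≤ (E i ∩ A).card with hN'def
  set A' := A.filter fun a => F a ∈ N' with hA'def
  have hA'A : A' ⊆ A := Finset.filter_subset _ _
  have hA' : ∀ a ∈ A', a ∈ W ∧ Std E W k a (F a) := fun a ha => hA a (hA'A ha)
  have hN'k : ∀ i ∈ N', sz E W i = k := fun i hi => hN i (Finset.mem_filter.1 hi).1
  have hN'A : ∀ i ∈ N', E i ∩ A' = E i ∩ A := by
    intro i hi
    refine Finset.Subset.antisymm (Finset.inter_subset_inter_left hA'A) ?_
    intro a ha
    obtain ⟨hai, haA⟩ := Finset.mem_inter.1 ha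
    refine Finset.mem_inter.2 ⟨hai, Finset.mem_filter.2 ⟨haA, ?_⟩⟩
    rw [← std_unique hk4 (hA a haA).2 (hN'k i hi) hai]
    exact hi
  have hN'3 : ∀ i ∈ N', 3 ≤ (E i ∩ A').card := by
    intro i hi
    rw [hN'A i hi]
    exact (Finset.mem_filter.1 hi).2
  have f1 := pairs_le hG hlin hk4 hA' hN'k hN'3 (fun a ha => (Finset.mem_filter.1 ha).2) hσ g hg
    hD hH
  have f2 : (A \ A').card ≤ 2 * N.card := by
    have h1 : A \ A' ⊆ (N \ N').biUnion fun i => E i ∩ A := by
      intro a ha
      obtain ⟨haA, haA'⟩ := Finset.mem_sdiff.1 ha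
      refine Finset.mem_biUnion.2 ⟨F a, Finset.mem_sdiff.2 ⟨hFN a haA, fun h =>
        haA' (Finset.mem_filter.2 ⟨haA, h⟩)⟩, Finset.mem_inter.2 ⟨(mem_TT.1 (hA a haA).2.1).2, haA⟩⟩
    refine (Finset.card_le_card h1).trans (Finset.card_biUnion_le.trans ?_)
    calc ∑ i ∈ N \ N', (E i ∩ A).card ≤ ∑ i ∈ N \ N', 2 := by
          refine Finset.sum_le_sum fun i hi => ?_
          obtain ⟨hiN, hiN'⟩ := Finset.mem_sdiff.1 hi
          by_contra hcon
          exact hiN' (Finset.mem_filter.2 ⟨hiN, by omega⟩)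
      _ = 2 * (N \ N').card := by rw [Finset.sum_const, smul_eq_mul, mul_comm]
      _ ≤ 2 * N.card := Nat.mul_le_mul_left _ (Finset.card_le_card Finset.sdiff_subset)
  have f3 : ∀ S ⊆ A, ∑ a ∈ S, (ex E G W F a).card = 2 * S.card := by
    intro S hS
    rw [Finset.sum_congr rfl fun a ha => card_ex hG hlin (hA a (hS ha)).1 (hA a (hS ha)).2,
      Finset.sum_const, smul_eq_mul, mul_comm]
  have f4 : ∑ a ∈ A', (ex E G W F a ∩ (A \ A')).card ≤ 2 * (A \ A').card := by
    rw [← f3 _ Finset.sdiff_subset]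
    have h1 : ∑ a ∈ A', (ex E G W F a ∩ (A \ A')).card
        = ∑ b ∈ A \ A', (A'.filter fun a => b ∈ ex E G W F a).card := by
      refine Eq.trans (Finset.sum_congr rfl fun a _ => ?_)
        (swap_count A' (A \ A') (fun a b => b ∈ ex E G W F a))
      congr 1
      ext x
      constructor
      · intro h
        exact Finset.mem_filter.2 ⟨(Finset.mem_inter.1 h).2, (Finset.mem_inter.1 h).1⟩
      · intro h
        exact Finset.mem_inter.2 ⟨(Finset.mem_filter.1 h).2, (Finset.mem_filter.1 h).1⟩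
    rw [h1]
    refine Finset.sum_le_sum fun b hb => Finset.card_le_card ?_
    intro a ha
    obtain ⟨haA', hb2⟩ := Finset.mem_filter.1 ha
    have hbA : b ∈ A := (Finset.mem_sdiff.1 hb).1
    exact ex_symm hk4 (hA' a haA').1 (hA b hbA).2 (hA' a haA').2 hb2
  have f5 : ∀ a ∈ A, (ex E G W F a).card = (ex E G W F a ∩ B).card +
      ((ex E G W F a ∩ A').card + (ex E G W F a ∩ (A \ A')).card) := by
    intro a _
    have h1 : ex E G W F a = (ex E G W F a ∩ B) ∪ ((ex E G W F a ∩ A') ∪
        (ex E G W F a ∩ (A \ A'))) := by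
      rw [← Finset.inter_union_distrib_left, ← Finset.inter_union_distrib_left,
        Finset.union_sdiff_of_subset hA'A, Finset.union_comm B A, hABW]
      refine (Finset.inter_eq_left.2 ?_).symm
      intro x hx
      exact (mem_ex.1 hx).1
    conv_lhs => rw [h1]
    rw [Finset.card_union_of_disjoint, Finset.card_union_of_disjoint]
    · exact Finset.disjoint_of_subset_left Finset.inter_subset_right
        (Finset.disjoint_of_subset_right Finset.inter_subset_right Finset.disjoint_sdiff)
    · rw [← Finset.inter_union_distrib_left, Finset.union_sdiff_of_subset hA'A]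
      exact Finset.disjoint_of_subset_left Finset.inter_subset_right
        (Finset.disjoint_of_subset_right Finset.inter_subset_right hAB.symm)
  have f6 : 2 * A'.card ≤ ∑ a ∈ A, (ex E G W F a ∩ B).card + (6 * N'.card + 12 * g) +
      2 * (A \ A').card := by
    rw [← f3 A' hA'A, Finset.sum_congr rfl fun a ha => f5 a (hA'A ha), Finset.sum_add_distrib,
      Finset.sum_add_distrib]
    have h1 : ∑ a ∈ A', (ex E G W F a ∩ B).card ≤ ∑ a ∈ A, (ex E G W F a ∩ B).card :=
      Finset.sum_le_sum_of_subset hA'A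
    omega
  have f7 : A.card = A'.card + (A \ A').card := by
    have := Finset.card_sdiff_add_card_eq_card hA'A
    omega
  have f8 : N'.card ≤ N.card := Finset.card_le_card (Finset.filter_subset _ _)
  have f9 : 2 * A.card ≤ ∑ a ∈ A, (ex E G W F a ∩ B).card + 14 * N.card + 12 * g := by omega
  have f10 : (2 : ℚ) * A.card ≤ 100 * D + 14 * N.card + 12 * g := by
    have h1 : (2 : ℚ) * A.card ≤ ((∑ a ∈ A, (ex E G W F a ∩ B).card : ℕ) : ℚ) + 14 * N.card +
        12 * g := by exact_mod_cast f9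
    linarith
  have f11 : (k : ℚ) * N.card ≤ 50 * D + A.card := by
    have h1 : ((∑ i ∈ N, (E i ∩ B).card : ℕ) : ℚ) + A.card = k * N.card := by
      exact_mod_cast c5
    linarith
  have f12 : (2 : ℚ) * (k * N.card) ≤ 612 * g + 314 * N.card := by linarith
  have hkg : (310 : ℚ) * (g + 1) ≤ k := by exact_mod_cast hk
  rcases Nat.eq_zero_or_pos N.card with h0 | h0
  · -- no standard vertices
    have h1 : A.card = 0 := by
      rw [h0] at c5
      omega
    rw [h0] at d1
    have h2 : (B.card : ℚ) ≤ 48 * g := by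
      push_cast at d1
      linarith
    have h3 : B.card ≤ 48 * g := by exact_mod_cast h2
    obtain ⟨v, hv⟩ := hW
    have h4 := hdeg v hv
    have h5 : (nb G W v).card ≤ W.card := Finset.card_le_card (Finset.filter_subset _ _)
    omega
  · have h1 : (1 : ℚ) ≤ N.card := by exact_mod_cast h0
    have h2 : (0 : ℚ) ≤ g := Nat.cast_nonneg _
    have h3 : (310 : ℚ) * (g + 1) * N.card ≤ k * N.card :=
      mul_le_mul_of_nonneg_right hkg (by linarith)
    have h4 : (g : ℚ) ≤ g * N.card := by nlinarith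
    nlinarith

end Q102.RG
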