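import Pool.Agent.Q102.RG.Charge

/-!
# Cycles through standard vertices
-/

set_option autoImplicit false
set_option linter.unusedSectionVars false

namespace Q102.RG

open SimpleGraph Module Q127.Surf Classical

variable {V ι : Type} [Fintype V] [Fintype ι]

/-- Four vertices with the property `P` which induce `K₄` minus an edge. -/
def Diamond (G : SimpleGraph V) (P : V → Prop) : Prop :=
  ∃ u₁ u₂ u₃ w, P u₁ ∧ P u₂ ∧ P u₃ ∧ P w ∧ G.Adj u₁ u₂ ∧ G.Adj u₁ u₃ ∧ G.Adj u₂ u₃ ∧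
    G.Adj w u₁ ∧ G.Adj w u₂ ∧ ¬ G.Adj w u₃ ∧ w ≠ u₃

/-- Five vertices with the property `P` which induce a 4-cycle and a triangle sharing an edge. -/
def House (G : SimpleGraph V) (P : V → Prop) : Prop :=
  ∃ u₁ u₂ u₃ w₁ w₂, P u₁ ∧ P u₂ ∧ P u₃ ∧ P w₁ ∧ P w₂ ∧
    G.Adj u₁ u₂ ∧ G.Adj u₁ u₃ ∧ G.Adj u₂ u₃ ∧ G.Adj w₁ w₂ ∧ G.Adj u₁ w₁ ∧ G.Adj u₂ w₂ ∧
    ¬ G.Adj u₁ w₂ ∧ ¬ G.Adj u₂ w₁ ∧ ¬ G.Adj u₃ w₁ ∧ ¬ G.Adj u₃ w₂ ∧
    u₁ ≠ w₂ ∧ u₂ ≠ w₁ ∧ u₃ ≠ w₁ ∧ u₃ ≠ w₂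

variable {E : ι → Finset V} {G : SimpleGraph V}

theorem nextV {z : (incidence E).Dart → F2} (hz : z ∈ cyc (incidence E)) {a : V} {i : ι}
    (h : Zr z (Sum.inl a) (Sum.inr i)) : ∃ j, j ≠ i ∧ Zr z (Sum.inl a) (Sum.inr j) := by
  obtain ⟨y, hy, h2⟩ := h.other hz
  rcases y with w | j
  · exact absurd h2.adj (adj_inl_inl E a w)
  · exact ⟨j, fun h => hy (by rw [h]), h2⟩

theorem nextI {z : (incidence E).Dart → F2} (hz : z ∈ cyc (incidence E)) {a : V} {i : ι}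
    (h : Zr z (Sum.inl a) (Sum.inr i)) : ∃ b, b ≠ a ∧ Zr z (Sum.inl b) (Sum.inr i) := by
  obtain ⟨y, hy, h2⟩ := (h.symm hz).other hz
  rcases y with w | j
  · exact ⟨w, fun h => hy (by rw [h]), h2.symm hz⟩
  · exact absurd h2.adj (adj_inr_inr E i j)

theorem cyc_three (hG : IsAdj E G) (hlin : Linear E) {F : V → ι} {A : Finset V} {N J : Finset ι}
    (hAN : ∀ a ∈ A, ∀ i ∈ N, a ∈ E i → i = F a)
    (hno1 : ∀ a ∈ A, ∀ i ∈ N, ∀ b ∈ A, ∀ b' ∈ A, b ∈ E i → b' ∈ E i → a ∉ E i →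
      G.Adj a b → G.Adj a b' → b = b')
    (hno2 : ∀ i ∈ N, ∀ i' ∈ N, i ≠ i' → ∀ a ∈ A, ∀ a' ∈ A, ∀ b ∈ A, ∀ b' ∈ A,
      a ∈ E i → a' ∈ E i → b ∈ E i' → b' ∈ E i' → G.Adj a b → G.Adj a' b' → a ≠ a' → b ≠ b' →
      False)
    {z : (incidence E).Dart → F2} (hz : z ∈ cycX (incidence E) (A.disjSum (N ∪ J)))
    (h0 : z ≠ 0) : ∃ j₁ j₂ j₃ : ι,
      j₁ ∈ J ∧ j₂ ∈ J ∧ j₃ ∈ J ∧ j₁ ≠ j₂ ∧ j₁ ≠ j₃ ∧ j₂ ≠ j₃ ∧
      (∃ x, Zr z (Sum.inr j₁) x) ∧ (∃ x, Zr z (Sum.inr j₂) x) ∧ (∃ x, Zr z (Sum.inr j₃) x) := by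
  have hc := hz.1
  have memA : ∀ {a i}, Zr z (Sum.inl a) (Sum.inr i) → a ∈ A := fun h =>
    Finset.inl_mem_disjSum.1 (h.mem hz).1
  have memI : ∀ {a i}, Zr z (Sum.inl a) (Sum.inr i) → i ∈ N ∨ i ∈ J := fun h =>
    Finset.mem_union.1 (Finset.inr_mem_disjSum.1 (h.mem hz).2)
  have inE : ∀ {a i}, Zr z (Sum.inl a) (Sum.inr i) → a ∈ E i := fun h => h.adj
  have outN : ∀ {a i j}, Zr z (Sum.inl a) (Sum.inr i) → i ∈ N → j ≠ i →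
      Zr z (Sum.inl a) (Sum.inr j) → j ∈ J := by
    intro a i j h1 hi hne h2
    rcases memI h2 with h | h
    · exact absurd ((hAN a (memA h1) j h (inE h2)).trans (hAN a (memA h1) i hi (inE h1)).symm) hne
    · exact h
  have adj : ∀ {a b : V} {i : ι}, a ∈ E i → b ∈ E i → a ≠ b → G.Adj a b := fun h1 h2 h3 =>
    (hG _ _).2 ⟨h3, _, h1, h2⟩
  -- a first hyperedge of `J`
  obtain ⟨a, j, haj, hjJ⟩ : ∃ a j, Zr z (Sum.inl a) (Sum.inr j) ∧ j ∈ J := by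
    obtain ⟨v, i, hvi⟩ : ∃ v i, Zr z (Sum.inl v) (Sum.inr i) := by
      obtain ⟨x, y, hxy⟩ := exists_Zr h0
      rcases x with v | i <;> rcases y with w | j
      · exact absurd hxy.adj (adj_inl_inl E v w)
      · exact ⟨v, j, hxy⟩
      · exact ⟨w, i, hxy.symm hc⟩
      · exact absurd hxy.adj (adj_inr_inr E i j)
    rcases memI hvi with h | h
    · obtain ⟨j, hj, hvj⟩ := nextV hc hvi
      exact ⟨v, j, hvj, outN hvi h hj hvj⟩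
    · exact ⟨v, i, hvi, h⟩
  obtain ⟨b, hba, hbj⟩ := nextI hc haj
  obtain ⟨ha, haj', hza⟩ := nextV hc haj
  obtain ⟨hb, hbj', hzb⟩ := nextV hc hbj
  have hab : ha ≠ hb := by
    rintro rfl
    exact haj' (hlin ha j a b (inE hza) (inE hzb) (inE haj) (inE hbj) hba.symm)
  -- the mixed case
  have mixed : ∀ a b ha hb, b ≠ a → Zr z (Sum.inl a) (Sum.inr j) → Zr z (Sum.inl b) (Sum.inr j) →
      ha ≠ j → hb ≠ j → Zr z (Sum.inl a) (Sum.inr ha) → Zr z (Sum.inl b) (Sum.inr hb) →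
      ha ∈ J → hb ∈ N → ∃ j₁ j₂ j₃ : ι,
      j₁ ∈ J ∧ j₂ ∈ J ∧ j₃ ∈ J ∧ j₁ ≠ j₂ ∧ j₁ ≠ j₃ ∧ j₂ ≠ j₃ ∧
      (∃ x, Zr z (Sum.inr j₁) x) ∧ (∃ x, Zr z (Sum.inr j₂) x) ∧ (∃ x, Zr z (Sum.inr j₃) x) := by
    intro a b ha hb hba haj hbj haj' hbj' hza hzb hJ hN
    obtain ⟨b', hb', hzb'⟩ := nextI hc hzb
    obtain ⟨h', hne', hzh'⟩ := nextV hc hzb'
    have hJ' : h' ∈ J := outN hzb' hN hne' hzh'
    have haF : a ∉ E hb := fun h =>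
      hbj' (hlin hb j a b h (inE hzb) (inE haj) (inE hbj) hba.symm)
    refine ⟨j, ha, h', hjJ, hJ, hJ', haj'.symm, ?_, ?_, ⟨_, haj.symm hc⟩, ⟨_, hza.symm hc⟩,
      ⟨_, hzh'.symm hc⟩⟩
    · rintro rfl
      exact hbj' (hlin hb j b b' (inE hzb) (inE hzb') (inE hbj) (inE hzh') hb'.symm)
    · rintro rfl
      have hab' : a ≠ b' := by
        rintro rfl
        exact haF (inE hzb')
      exact hb' (hno1 a (memA haj) hb hN b (memA hbj) b' (memA hzb') (inE hzb) (inE hzb') haF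
        (adj (inE haj) (inE hbj) hba.symm) (adj (inE hza) (inE hzh') hab')).symm
  rcases memI hza with hN | hJ <;> rcases memI hzb with hN' | hJ'
  · -- both in `N`
    obtain ⟨a', ha', hza'⟩ := nextI hc hza
    obtain ⟨j2, hj2, hz2⟩ := nextV hc hza'
    obtain ⟨b', hb', hzb'⟩ := nextI hc hzb
    obtain ⟨j3, hj3, hz3⟩ := nextV hc hzb'
    have m2 : j2 ∈ J := outN hza' hN hj2 hz2
    have m3 : j3 ∈ J := outN hzb' hN' hj3 hz3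
    refine ⟨j, j2, j3, hjJ, m2, m3, ?_, ?_, ?_, ⟨_, haj.symm hc⟩, ⟨_, hz2.symm hc⟩,
      ⟨_, hz3.symm hc⟩⟩
    · rintro rfl
      exact hj2 (hlin j ha a a' (inE haj) (inE hz2) (inE hza) (inE hza') ha'.symm)
    · rintro rfl
      exact hj3 (hlin j hb b b' (inE hbj) (inE hz3) (inE hzb) (inE hzb') hb'.symm)
    · rintro rfl
      have hne : a' ≠ b' := by
        rintro rfl
        exact hab ((hAN a' (memA hza') ha hN (inE hza')).trans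
          (hAN a' (memA hza') hb hN' (inE hzb')).symm)
      exact hno2 ha hN hb hN' hab a (memA haj) a' (memA hza') b (memA hbj) b' (memA hzb')
        (inE hza) (inE hza') (inE hzb) (inE hzb') (adj (inE haj) (inE hbj) hba.symm)
        (adj (inE hz2) (inE hz3) hne) ha'.symm hb'.symm
  · exact mixed b a hb ha hba.symm hbj haj hbj' haj' hzb hza hJ' hN
  · exact mixed a b ha hb hba haj hbj haj' hbj' hza hzb hJ hN'
  · exact ⟨j, ha, hb, hjJ, hJ, hJ', haj'.symm, hbj'.symm, hab, ⟨_, haj.symm hc⟩,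
      ⟨_, hza.symm hc⟩, ⟨_, hzb.symm hc⟩⟩

end Q102.RG
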