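import Pool.Agent.Q127.Surf.Defs

/-!
# Hypergraphs, incidence graphs, reduced genus
-/

set_option autoImplicit false

namespace Q102.RG

open SimpleGraph Q127.Surf

/-- `G` embeds in the closed orientable surface of genus `g`. -/
def EmbedsIn {U : Type} (G : SimpleGraph U) (g : ℕ) : Prop :=
  ∃ σ : Equiv.Perm G.Dart, IsRotation G σ ∧ GenusAtMost G σ g

/-- The genus of `G` is `g`. -/
def HasGenus {U : Type} (G : SimpleGraph U) (g : ℕ) : Prop :=
  IsLeast {h : ℕ | EmbedsIn G h} g

/-- The incidence graph of the hypergraph with vertex set `V` and edges `E i`, `i : ι`. -/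
def incidence {V ι : Type} (E : ι → Finset V) : SimpleGraph (V ⊕ ι) where
  Adj a b := match a, b with
    | Sum.inl v, Sum.inr i => v ∈ E i
    | Sum.inr i, Sum.inl v => v ∈ E i
    | _, _ => False
  symm := ⟨fun a b => by rcases a with v | i <;> rcases b with w | j <;> exact id⟩
  loopless := ⟨fun a => by rcases a with v | i <;> exact id⟩

/-- The multiplicity of `uv` in the adjacency multigraph: the number of hyperedges containing both
`u` and `v`. -/
noncomputable def mult {V ι : Type} (E : ι → Finset V) (u v : V) : ℕ :=
  Nat.card {i : ι // u ∈ E i ∧ v ∈ E i}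

/-- The adjacency multigraph of the hypergraph is the simple graph `G`. -/
def AdjacencyIs {V ι : Type} (E : ι → Finset V) (G : SimpleGraph V) : Prop :=
  ∀ u v : V, u ≠ v → (G.Adj u v → mult E u v = 1) ∧ (¬ G.Adj u v → mult E u v = 0)

/-- The reduced genus of `G` is `g`: the least genus of a finite hypergraph whose adjacency
multigraph is `G`. -/
def HasReducedGenus {V : Type} (G : SimpleGraph V) (g : ℕ) : Prop :=
  IsLeast {h : ℕ | ∃ (ι : Type) (_ : Finite ι) (E : ι → Finset V),
    AdjacencyIs E G ∧ HasGenus (incidence E) h} g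

end Q102.RG
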