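import Pool.Agent.Q127.Surf.Count
import Pool.Agent.Q102.RG.Defs

/-!
# Euler's inequality for induced subgraphs of the incidence graph
-/

set_option autoImplicit false

namespace Q102.RG

open SimpleGraph Module Q127.Surf

section general

variable {U : Type} {Γ : SimpleGraph U}

open Classical in
theorem euler_weighted [Fintype U] {σ : Equiv.Perm Γ.Dart} (hσ : IsRotation Γ σ) (g : ℕ)
    (hg : GenusAtMost Γ σ g) (X : Finset U) (hX : X.Nonempty) (D : Finset Γ.Dart)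
    (hcyc : ∀ z ∈ cycX Γ X, z ≠ 0 → 6 ≤ ((spt z).filter fun d => d ∈ D).card) :
    3 * (dartsIn Γ X).ncard + 6 ≤ 6 * X.card + 2 * D.card + 12 * g := by
  have h1 := finrank_cycX_ge (G := Γ) X hX
  have h2 := finrank_inf_ge hσ g hg X
  have h3 := finrank_inf_lt (σ := σ) X
  have h4 : 6 * (reg1 σ X).card ≤ 2 * D.card := by
    have h5 : 6 * (reg1 σ X).card ≤
        ∑ R ∈ reg1 σ X, ((spt (zR σ X R)).filter fun d => d ∈ D).card := by
      rw [mul_comm, ← smul_eq_mul]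
      refine Finset.card_nsmul_le_sum _ _ _ fun R hR => ?_
      exact hcyc _ (zR_mem_cycX hσ X R) (Finset.mem_filter.mp hR).2
    refine h5.trans ?_
    have h6 : ∀ R ∈ reg1 σ X, ((spt (zR σ X R)).filter fun d => d ∈ D).card
        = ∑ d ∈ D, if zR σ X R d ≠ 0 then 1 else 0 := by
      intro R _
      rw [← Finset.sum_filter, Finset.sum_const, smul_eq_mul, mul_one]
      congr 1
      ext d
      rw [Finset.mem_filter, Finset.mem_filter, mem_spt]
      exact and_comm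
    rw [Finset.sum_congr rfl h6, Finset.sum_comm]
    have h7 : ∀ d ∈ D, (∑ R ∈ reg1 σ X, if zR σ X R d ≠ 0 then 1 else 0) ≤ 2 := by
      intro d _
      rw [← Finset.sum_filter, Finset.sum_const, smul_eq_mul, mul_one]
      exact card_reg_at σ X d
    refine (Finset.sum_le_sum h7).trans ?_
    rw [Finset.sum_const, smul_eq_mul, mul_comm]
  rcases Nat.eq_zero_or_pos
    (finrank F2 (cycX Γ X ⊓ bou σ : Submodule F2 (Γ.Dart → F2))) with h0 | h0
  · omega
  · have := h3 h0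
    omega

/-- `xy` is an edge of the support of `z`. -/
def Zr (z : Γ.Dart → F2) (x y : U) : Prop := ∃ h : Γ.Adj x y, z ⟨(x, y), h⟩ ≠ 0

theorem Zr.adj {z : Γ.Dart → F2} {x y : U} (h : Zr z x y) : Γ.Adj x y := h.1

theorem Zr.symm [Fintype U] {z : Γ.Dart → F2} (hz : z ∈ cyc Γ) {x y : U} (h : Zr z x y) :
    Zr z y x := by
  obtain ⟨h1, h2⟩ := h
  refine ⟨h1.symm, ?_⟩
  have := hz.1 ⟨(x, y), h1⟩
  intro h3
  apply h2
  rw [← this]
  exact h3

theorem Zr.other [Fintype U] {z : Γ.Dart → F2} (hz : z ∈ cyc Γ) {x y : U} (h : Zr z x y) :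
    ∃ y', y' ≠ y ∧ Zr z x y' := by
  obtain ⟨h1, h2⟩ := h
  obtain ⟨e, he, hf, hs⟩ := exists_other hz h2
  refine ⟨e.snd, hs, ?_⟩
  have hadj := e.adj
  obtain ⟨⟨a, b⟩, hab⟩ := e
  simp only at hf hs
  subst hf
  exact ⟨hab, he⟩

theorem Zr.mem [Fintype U] {X : Finset U} {z : Γ.Dart → F2} (hz : z ∈ cycX Γ X) {x y : U}
    (h : Zr z x y) : x ∈ X ∧ y ∈ X := by
  by_contra hcon
  obtain ⟨h1, h2⟩ := h
  exact h2 (hz.2 ⟨(x, y), h1⟩ hcon)

theorem exists_Zr {z : Γ.Dart → F2} (h0 : z ≠ 0) : ∃ x y, Zr z x y := by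
  by_contra hcon
  push Not at hcon
  apply h0
  funext d
  by_contra hd
  exact hcon d.fst d.snd ⟨d.adj, hd⟩

theorem degX_ncard [Fintype U] (X : Finset U) (v : U) :
    degX Γ X v = {d : Γ.Dart | d ∈ dartsIn Γ X ∧ d.fst = v}.ncard := by
  classical
  unfold degX
  rw [← Set.ncard_coe_finset]
  congr 1
  ext d
  simp

open Classical in
theorem two_le_card_at [Fintype U] {z : Γ.Dart → F2} (hz : z ∈ cyc Γ) {x y : U}
    (h : Zr z x y) : 2 ≤ ((spt z).filter fun e : Γ.Dart => e.fst = x).card := by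
  obtain ⟨h1, h2⟩ := h
  exact two_le_card_spt_at hz h2

open Classical in
theorem six_le [Fintype U] {z : Γ.Dart → F2} (hz : z ∈ cyc Γ) (D : Finset Γ.Dart)
    (x : Fin 3 → U) (hx : Function.Injective x) (hzr : ∀ i, ∃ y, Zr z (x i) y)
    (hD : ∀ i, ∀ d : Γ.Dart, z d ≠ 0 → d.fst = x i → d ∈ D) :
    6 ≤ ((spt z).filter fun d => d ∈ D).card := by
  have h1 : ∀ i, 2 ≤ (((spt z).filter fun d => d ∈ D).filter
      fun e : Γ.Dart => e.fst = x i).card := by
    intro i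
    obtain ⟨y, hy⟩ := hzr i
    refine (two_le_card_at hz hy).trans (Finset.card_le_card ?_)
    intro d hd
    obtain ⟨hd1, hd2⟩ := Finset.mem_filter.1 hd
    exact Finset.mem_filter.2 ⟨Finset.mem_filter.2 ⟨hd1, hD i d (mem_spt.1 hd1) hd2⟩, hd2⟩
  have h2 : ∑ i : Fin 3, (((spt z).filter fun d => d ∈ D).filter
      fun e : Γ.Dart => e.fst = x i).card ≤ ((spt z).filter fun d => d ∈ D).card := by
    rw [← Finset.card_biUnion]
    · refine Finset.card_le_card ?_
      intro d hd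
      obtain ⟨i, -, hd⟩ := Finset.mem_biUnion.1 hd
      exact (Finset.mem_filter.1 hd).1
    · intro i _ j _ hij
      refine Finset.disjoint_left.2 ?_
      intro d hd1 hd2
      exact hij (hx ((Finset.mem_filter.1 hd1).2.symm.trans (Finset.mem_filter.1 hd2).2))
  have h3 : ∑ i : Fin 3, 2 ≤ ∑ i : Fin 3, (((spt z).filter fun d => d ∈ D).filter
      fun e : Γ.Dart => e.fst = x i).card := Finset.sum_le_sum fun i _ => h1 i
  simp at h3
  omega

end general

section incidence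

variable {V ι : Type} (E : ι → Finset V)

@[simp] theorem adj_inl_inr (v : V) (i : ι) : (incidence E).Adj (Sum.inl v) (Sum.inr i) ↔ v ∈ E i :=
  Iff.rfl

@[simp] theorem adj_inr_inl (v : V) (i : ι) : (incidence E).Adj (Sum.inr i) (Sum.inl v) ↔ v ∈ E i :=
  Iff.rfl

@[simp] theorem adj_inl_inl (v w : V) : ¬ (incidence E).Adj (Sum.inl v) (Sum.inl w) := fun h => h

@[simp] theorem adj_inr_inr (i j : ι) : ¬ (incidence E).Adj (Sum.inr i) (Sum.inr j) := fun h => h

/-- Two distinct edges share at most one vertex. -/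
def Linear : Prop := ∀ i j, ∀ u v, u ∈ E i → v ∈ E i → u ∈ E j → v ∈ E j → u ≠ v → i = j

variable {E}

/-- The number of incidences between a vertex set and a family of hyperedges. -/
noncomputable def inc [DecidableEq V] (E : ι → Finset V) (A : Finset V) (B : Finset ι) : ℕ :=
  ∑ i ∈ B, (E i ∩ A).card

open Classical in
theorem card_darts_at [Fintype V] [Fintype ι] (A : Finset V) (B : Finset ι) (i : ι)
    (hi : i ∈ B) : {d : (incidence E).Dart | d ∈ dartsIn (incidence E) (A.disjSum B) ∧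
      d.fst = Sum.inr i}.ncard = (E i ∩ A).card := by
  rw [← Set.ncard_coe_finset (E i ∩ A)]
  symm
  refine Set.ncard_congr
    (fun v hv => (⟨(Sum.inr i, Sum.inl v), (adj_inr_inl E v i).2 (Finset.mem_inter.1 hv).1⟩ :
      (incidence E).Dart)) ?_ ?_ ?_
  · intro v hv
    refine ⟨⟨?_, ?_⟩, rfl⟩
    · exact Finset.inr_mem_disjSum.2 hi
    · exact Finset.inl_mem_disjSum.2 (Finset.mem_inter.1 hv).2
  · intro v w hv hw h
    simpa using h
  · rintro ⟨⟨a, b⟩, hab⟩ hd
    obtain ⟨⟨hd1, hd2⟩, hd3⟩ := hd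
    simp only at hd1 hd2 hd3
    subst hd3
    rcases b with v | j
    · exact ⟨v, Finset.mem_coe.2 (Finset.mem_inter.2 ⟨hab, Finset.inl_mem_disjSum.1 hd2⟩), rfl⟩
    · exact absurd hab (adj_inr_inr E i j)

open Classical in
theorem card_darts_at' [Fintype V] [Fintype ι] (A : Finset V) (B : Finset ι) (v : V)
    (hv : v ∈ A) : {d : (incidence E).Dart | d ∈ dartsIn (incidence E) (A.disjSum B) ∧
      d.fst = Sum.inl v}.ncard = (B.filter fun i => v ∈ E i).card := by
  rw [← Set.ncard_coe_finset (B.filter fun i => v ∈ E i)]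
  symm
  refine Set.ncard_congr
    (fun i hi => (⟨(Sum.inl v, Sum.inr i), (adj_inl_inr E v i).2 (Finset.mem_filter.1 hi).2⟩ :
      (incidence E).Dart)) ?_ ?_ ?_
  · intro i hi
    refine ⟨⟨?_, ?_⟩, rfl⟩
    · exact Finset.inl_mem_disjSum.2 hv
    · exact Finset.inr_mem_disjSum.2 (Finset.mem_filter.1 hi).1
  · intro i j hi hj h
    simpa using h
  · rintro ⟨⟨a, b⟩, hab⟩ hd
    obtain ⟨⟨hd1, hd2⟩, hd3⟩ := hd
    simp only at hd1 hd2 hd3
    subst hd3
    rcases b with w | i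
    · exact absurd hab (adj_inl_inl E v w)
    · exact ⟨i, Finset.mem_coe.2 (Finset.mem_filter.2 ⟨Finset.inr_mem_disjSum.1 hd2, hab⟩), rfl⟩

open Classical in
theorem sum_card_comm (A : Finset V) (B : Finset ι) :
    ∑ v ∈ A, (B.filter fun i => v ∈ E i).card = inc E A B := by
  unfold inc
  have h1 : ∀ v ∈ A, (B.filter fun i => v ∈ E i).card = ∑ i ∈ B, if v ∈ E i then 1 else 0 := by
    intro v _
    rw [← Finset.sum_filter, Finset.sum_const, smul_eq_mul, mul_one]
  rw [Finset.sum_congr rfl h1, Finset.sum_comm]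
  refine Finset.sum_congr rfl fun i _ => ?_
  rw [← Finset.sum_filter, Finset.sum_const, smul_eq_mul, mul_one, Finset.inter_comm,
    ← Finset.filter_mem_eq_inter]

open Classical in
theorem card_dartsIn [Fintype V] [Fintype ι] (A : Finset V) (B : Finset ι) :
    (dartsIn (incidence E) (A.disjSum B)).ncard = 2 * inc E A B := by
  rw [← sum_degX, Finset.sum_disjSum]
  rw [Finset.sum_congr rfl (fun v hv => (degX_ncard _ _).trans (card_darts_at' (E := E) A B v hv)),
    Finset.sum_congr rfl (fun i hi => (degX_ncard _ _).trans (card_darts_at (E := E) A B i hi)),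
    sum_card_comm]
  unfold inc
  omega

open Classical in
theorem euler_inc [Fintype V] [Fintype ι] {σ : Equiv.Perm (incidence E).Dart}
    (hσ : IsRotation (incidence E) σ) (g : ℕ) (hg : GenusAtMost (incidence E) σ g)
    (A : Finset V) (B J : Finset ι) (hA : A.Nonempty) (hJ : J ⊆ B)
    (hcyc : ∀ z ∈ cycX (incidence E) (A.disjSum B), z ≠ 0 → ∃ j₁ j₂ j₃ : ι,
      j₁ ∈ J ∧ j₂ ∈ J ∧ j₃ ∈ J ∧ j₁ ≠ j₂ ∧ j₁ ≠ j₃ ∧ j₂ ≠ j₃ ∧
      (∃ x, Zr z (Sum.inr j₁) x) ∧ (∃ x, Zr z (Sum.inr j₂) x) ∧ (∃ x, Zr z (Sum.inr j₃) x)) :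
    3 * inc E A B + 3 ≤ 3 * (A.card + B.card) + inc E A J + 6 * g := by
  set X := A.disjSum B with hXdef
  have hX : X.Nonempty := by
    obtain ⟨v, hv⟩ := hA
    exact ⟨Sum.inl v, Finset.inl_mem_disjSum.2 hv⟩
  set D : Finset (incidence E).Dart :=
    J.biUnion fun j => (Set.toFinite {d : (incidence E).Dart |
      d ∈ dartsIn (incidence E) X ∧ d.fst = Sum.inr j}).toFinset with hD
  have hDcard : D.card ≤ inc E A J := by
    refine Finset.card_biUnion_le.trans ?_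
    unfold inc
    refine Finset.sum_le_sum fun j hj => ?_
    rw [← card_darts_at (E := E) A B j (hJ hj), Set.ncard_eq_toFinset_card _ (Set.toFinite _)]
  have h := euler_weighted hσ g hg X hX D ?_
  · rw [card_dartsIn, hXdef, Finset.card_disjSum] at h
    omega
  · intro z hz h0
    obtain ⟨j₁, j₂, j₃, m1, m2, m3, n12, n13, n23, ⟨x1, e1⟩, ⟨x2, e2⟩, ⟨x3, e3⟩⟩ := hcyc z hz h0
    refine six_le hz.1 D ![Sum.inr j₁, Sum.inr j₂, Sum.inr j₃] ?_ ?_ ?_
    · intro a b hab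
      fin_cases a <;> fin_cases b <;> simp_all
    · intro a
      fin_cases a
      · exact ⟨x1, e1⟩
      · exact ⟨x2, e2⟩
      · exact ⟨x3, e3⟩
    · have key : ∀ j ∈ J, ∀ d : (incidence E).Dart, z d ≠ 0 → d.fst = Sum.inr j → d ∈ D := by
        intro j hj d hd1 hd2
        rw [hD, Finset.mem_biUnion]
        refine ⟨j, hj, (Set.Finite.mem_toFinset _).2 ⟨?_, hd2⟩⟩
        by_contra hcon
        exact hd1 (hz.2 d hcon)
      intro a
      fin_cases a
      · exact key j₁ m1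
      · exact key j₂ m2
      · exact key j₃ m3

/-- In a linear hypergraph every cycle of the incidence graph passes through three hyperedges. -/
theorem three_edges [Fintype V] [Fintype ι] (hlin : Linear E) {z : (incidence E).Dart → F2}
    (hz : z ∈ cyc (incidence E)) (h0 : z ≠ 0) : ∃ j₁ j₂ j₃ : ι,
      j₁ ≠ j₂ ∧ j₁ ≠ j₃ ∧ j₂ ≠ j₃ ∧
      (∃ x, Zr z (Sum.inr j₁) x) ∧ (∃ x, Zr z (Sum.inr j₂) x) ∧ (∃ x, Zr z (Sum.inr j₃) x) := by
  obtain ⟨v, i, hvi⟩ : ∃ v i, Zr z (Sum.inl v) (Sum.inr i) := by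
    obtain ⟨x, y, hxy⟩ := exists_Zr h0
    rcases x with v | i <;> rcases y with w | j
    · exact absurd hxy.adj (adj_inl_inl E v w)
    · exact ⟨v, j, hxy⟩
    · exact ⟨w, i, hxy.symm hz⟩
    · exact absurd hxy.adj (adj_inr_inr E i j)
  obtain ⟨y, hy, hvj⟩ := hvi.other hz
  obtain ⟨j, rfl⟩ : ∃ j, y = Sum.inr j := by
    rcases y with w | j
    · exact absurd hvj.adj (adj_inl_inl E v w)
    · exact ⟨j, rfl⟩
  obtain ⟨y, hwv, hiw⟩ := (hvi.symm hz).other hz
  obtain ⟨w, rfl⟩ : ∃ w, y = Sum.inl w := by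
    rcases y with w | j
    · exact ⟨w, rfl⟩
    · exact absurd hiw.adj (adj_inr_inr E i j)
  obtain ⟨y, hki, hwk⟩ := (hiw.symm hz).other hz
  obtain ⟨k, rfl⟩ : ∃ k, y = Sum.inr k := by
    rcases y with w' | j
    · exact absurd hwk.adj (adj_inl_inl E w w')
    · exact ⟨j, rfl⟩
  have hij : i ≠ j := fun h => hy (by rw [h])
  have hik : i ≠ k := fun h => hki (by rw [h])
  have hvw : v ≠ w := fun h => hwv (by rw [h])
  refine ⟨i, j, k, hij, hik, ?_, ⟨_, hiw⟩, ⟨_, hvj.symm hz⟩, ⟨_, hwk.symm hz⟩⟩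
  rintro rfl
  exact hij (hlin i j v w hvi.adj hiw.adj hvj.adj hwk.adj hvw)

open Classical in
/-- Euler's inequality for linear hypergraphs. -/
theorem euler_linear [Fintype V] [Fintype ι] (hlin : Linear E) {σ : Equiv.Perm (incidence E).Dart}
    (hσ : IsRotation (incidence E) σ) (g : ℕ) (hg : GenusAtMost (incidence E) σ g)
    (A : Finset V) (B : Finset ι) (hA : A.Nonempty) :
    2 * inc E A B + 3 ≤ 3 * (A.card + B.card) + 6 * g := by
  have h := euler_inc hσ g hg A B B hA (Finset.Subset.refl _) ?_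
  · omega
  · intro z hz h0
    obtain ⟨j₁, j₂, j₃, n12, n13, n23, ⟨x1, e1⟩, ⟨x2, e2⟩, ⟨x3, e3⟩⟩ := three_edges hlin hz.1 h0
    exact ⟨j₁, j₂, j₃, Finset.inr_mem_disjSum.1 (e1.mem hz).1,
      Finset.inr_mem_disjSum.1 (e2.mem hz).1, Finset.inr_mem_disjSum.1 (e3.mem hz).1,
      n12, n13, n23, ⟨x1, e1⟩, ⟨x2, e2⟩, ⟨x3, e3⟩⟩

end incidence

end Q102.RG
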