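import Mathlib

/-!
# Colouring the vertices of a list one after the other

`Ext s r l f`: the vertices of the list `l` can be coloured one after the other such that each vertex
gets a colour which occurs fewer than `s` times among its neighbours coloured before; `f x i` is the
number of neighbours of `x` which have the colour `i` in advance.
-/

set_option autoImplicit false

namespace Q102.RG

open Classical

variable {α β K : Type}

/-- Successive colourings. -/
def Ext (s : ℕ) (r : α → α → Prop) : List α → (α → K → ℕ) → Prop
  | [], _ => True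
  | x :: l, f => ∃ i, f x i < s ∧
      Ext s r l (fun y j => f y j + if r y x ∧ j = i then 1 else 0)

theorem ext_map (s : ℕ) {r : α → α → Prop} {t : β → β → Prop} (e : β → α)
    (he : ∀ a b, r (e a) (e b) ↔ t a b) : ∀ (l : List β) (f : α → K → ℕ),
    Ext s t l (fun a => f (e a)) → Ext s r (l.map e) f := by
  intro l
  induction l with
  | nil => intro f _; trivial
  | cons x l ih =>
    rintro f ⟨i, h1, h2⟩
    refine ⟨i, h1, ih _ ?_⟩
    have : (fun a => (fun (y : α) (j : K) => f y j + if r y (e x) ∧ j = i then 1 else 0) (e a))
        = fun y j => f (e y) j + if t y x ∧ j = i then 1 else 0 := by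
      funext a j
      simp only [he]
    rw [this]
    exact h2

/-- The total number of blocked places. -/
noncomputable def SS [Fintype K] (s : ℕ) (f : α → K → ℕ) (x : α) : ℕ := ∑ i, min s (f x i)

/-- The number of elements of `l` related to `x`. -/
noncomputable def dg (r : α → α → Prop) (l : List α) (x : α) : ℕ := (l.filter fun z => r x z).length

theorem exists_free [Fintype K] {s : ℕ} {f : α → K → ℕ} {x : α}
    (h : SS s f x < s * Fintype.card K) : ∃ i, f x i < s := by
  by_contra hcon
  push Not at hcon
  apply absurd h
  rw [not_lt]
  unfold SS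
  rw [Finset.sum_congr rfl fun i _ => min_eq_left (hcon i), Finset.sum_const, smul_eq_mul, mul_comm]
  exact le_rfl

theorem SS_step [Fintype K] (s : ℕ) (f : α → K → ℕ) (r : α → α → Prop) (x y : α) (i : K) :
    SS s (fun y j => f y j + if r y x ∧ j = i then 1 else 0) y ≤ SS s f y +
      if r y x then 1 else 0 := by
  unfold SS
  have h1 : ∑ j, min s (f y j + if r y x ∧ j = i then 1 else 0) ≤
      ∑ j, (min s (f y j) + if j = i then (if r y x then 1 else 0) else 0) := by
    refine Finset.sum_le_sum fun j _ => ?_
    by_cases h1 : j = i <;> by_cases h2 : r y x <;> simp [h1, h2]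
    omega
  refine h1.trans (le_of_eq ?_)
  rw [Finset.sum_add_distrib, Finset.sum_ite_eq']
  simp

theorem SS_step' [Fintype K] (s : ℕ) (f : α → K → ℕ) (r : α → α → Prop) (x y : α) (i : K)
    (hi : s ≤ f y i) :
    SS s (fun y j => f y j + if r y x ∧ j = i then 1 else 0) y = SS s f y := by
  unfold SS
  refine Finset.sum_congr rfl fun j _ => ?_
  by_cases h1 : j = i
  · subst h1
    rw [min_eq_left hi, min_eq_left (le_trans hi (Nat.le_add_right _ _))]
  · simp [h1]

/-- Every element of the list but the last is related to a later one. -/
def OrdOK (r : α → α → Prop) : List α → Prop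
  | [] => True
  | [_] => True
  | x :: y :: l => (∃ z ∈ y :: l, r x z) ∧ OrdOK r (y :: l)

theorem dg_cons (r : α → α → Prop) (l : List α) (x y : α) :
    dg r (x :: l) y = dg r l y + if r y x then 1 else 0 := by
  unfold dg
  rw [List.filter_cons]
  by_cases h : r y x <;> simp [h]

/-- The greedy colouring. -/
theorem greedy [Fintype K] {s : ℕ} (r : α → α → Prop) :
    ∀ (l : List α) (hl : l ≠ []) (f : α → K → ℕ), OrdOK r l →
      (∀ x ∈ l, SS s f x + dg r l x ≤ s * Fintype.card K) →
      SS s f (l.getLast hl) + dg r l (l.getLast hl) < s * Fintype.card K → Ext s r l f := by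
  intro l
  induction l with
  | nil => intro hl; exact absurd rfl hl
  | cons x l ih =>
    intro hl f hord hle hlt
    rcases l with _ | ⟨y, l⟩
    · have h1 : SS s f x < s * Fintype.card K := by
        simp only [List.getLast_singleton] at hlt
        omega
      obtain ⟨i, hi⟩ := exists_free h1
      exact ⟨i, hi, trivial⟩
    · obtain ⟨⟨z, hz, hxz⟩, hord⟩ := hord
      have h1 : SS s f x < s * Fintype.card K := by
        have h2 := hle x List.mem_cons_self
        have h3 : 0 < dg r (x :: y :: l) x := by
          unfold dg
          rw [List.length_pos_iff_exists_mem]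
          exact ⟨z, List.mem_filter.2 ⟨List.mem_cons_of_mem _ hz, by simpa using hxz⟩⟩
        omega
      obtain ⟨i, hi⟩ := exists_free h1
      refine ⟨i, hi, ih (List.cons_ne_nil _ _) _ hord ?_ ?_⟩
      · intro w hw
        have h2 := hle w (List.mem_cons_of_mem _ hw)
        have h3 := SS_step s f r x w i
        rw [dg_cons] at h2
        omega
      · have h3 := SS_step s f r x ((y :: l).getLast (List.cons_ne_nil _ _)) i
        rw [List.getLast_cons (List.cons_ne_nil _ _), dg_cons] at hlt
        omega

/-- One step with a wasted colour, then the greedy colouring. -/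
theorem greedy' [Fintype K] {s : ℕ} (r : α → α → Prop) (x : α)
    (l : List α) (hl : l ≠ []) (f : α → K → ℕ) (hord : OrdOK r l)
    (hle : ∀ z ∈ l, SS s f z + dg r (x :: l) z ≤ s * Fintype.card K)
    (hr : r (l.getLast hl) x) (i : K) (hi : f x i < s) (hi' : s ≤ f (l.getLast hl) i) :
    Ext s r (x :: l) f := by
  refine ⟨i, hi, greedy r l hl _ hord ?_ ?_⟩
  · intro w hw
    have h2 := hle w hw
    have h3 := SS_step s f r x w i
    rw [dg_cons] at h2
    omega
  · have h2 := hle _ (List.getLast_mem hl)
    rw [dg_cons, if_pos hr] at h2
    rw [SS_step' s f r x _ i hi']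
    omega

end Q102.RG
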