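import Pool.Agent.Q102.RG.Cycles

/-!
# Extra neighbours of standard vertices
-/

set_option autoImplicit false
set_option linter.unusedSectionVars false

namespace Q102.RG

open SimpleGraph Module Q127.Surf Classical

variable {V ι : Type} [Fintype V] [Fintype ι]

theorem swap_count {α β : Type} (S : Finset α) (T : Finset β) (r : α → β → Prop)
    [∀ a, DecidablePred fun b => r a b] [∀ b, DecidablePred fun a => r a b] :
    ∑ a ∈ S, (T.filter fun b => r a b).card = ∑ b ∈ T, (S.filter fun a => r a b).card := by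
  simp only [Finset.card_filter]
  exact Finset.sum_comm

variable {E : ι → Finset V} {G : SimpleGraph V} {W : Finset V} {k : ℕ} {F : V → ι}

/-- The neighbours of `a` outside the hyperedge `F a`. -/
noncomputable def ex (E : ι → Finset V) (G : SimpleGraph V) (W : Finset V) (F : V → ι) (a : V) :
    Finset V := nb G W a \ E (F a)

theorem mem_ex {a b : V} : b ∈ ex E G W F a ↔ b ∈ W ∧ G.Adj a b ∧ b ∉ E (F a) := by
  unfold ex
  rw [Finset.mem_sdiff, mem_nb]
  tauto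

theorem std_unique (hk : 4 ≤ k) {a : V} (ha : Std E W k a (F a)) {i : ι} (hi : sz E W i = k)
    (hai : a ∈ E i) : i = F a := by
  by_contra hne
  have := std_le_three ha (mem_TT.2 ⟨by omega, hai⟩) hne
  omega

theorem ex_eq (hG : IsAdj E G) (hlin : Linear E) {a : V} (haW : a ∈ W)
    (ha : Std E W k a (F a)) :
    ex E G W F a = ((TT E W a).erase (F a)).biUnion fun i => (E i ∩ W).erase a := by
  ext w
  unfold ex
  rw [Finset.mem_sdiff, nb_eq hG haW, Finset.mem_biUnion, Finset.mem_biUnion]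
  constructor
  · rintro ⟨⟨i, hi, hw⟩, hwF⟩
    refine ⟨i, Finset.mem_erase.2 ⟨?_, hi⟩, hw⟩
    rintro rfl
    exact hwF (Finset.mem_inter.1 (Finset.mem_erase.1 hw).2).1
  · rintro ⟨i, hi, hw⟩
    obtain ⟨hne, hi⟩ := Finset.mem_erase.1 hi
    refine ⟨⟨i, hi, hw⟩, fun hwF => hne ?_⟩
    obtain ⟨hwa, hw⟩ := Finset.mem_erase.1 hw
    exact hlin i (F a) a w (mem_TT.1 hi).2 (Finset.mem_inter.1 hw).1 (mem_TT.1 ha.1).2 hwF
      hwa.symm

theorem card_ex (hG : IsAdj E G) (hlin : Linear E) {a : V} (haW : a ∈ W)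
    (ha : Std E W k a (F a)) : (ex E G W F a).card = 2 := by
  rw [ex_eq hG hlin haW ha, card_biUnion_erase hlin haW]
  · exact ha.2.2
  · intro i hi
    exact (mem_TT.1 (Finset.mem_of_mem_erase hi)).2

theorem std_low (hG : IsAdj E G) (hlin : Linear E) (hk : 4 ≤ k) {a : V} (haW : a ∈ W)
    (ha : Std E W k a (F a)) : (nb G W a).card = k + 1 := by
  rw [card_nb hG hlin haW, ← Finset.add_sum_erase _ _ ha.1, ha.2.2, ha.2.1]
  omega

theorem ex_edge (hG : IsAdj E G) {a b : V} (haW : a ∈ W) (ha : Std E W k a (F a))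
    (hb : b ∈ ex E G W F a) : ∃ i, i ≠ F a ∧ a ∈ E i ∧ b ∈ E i ∧ 2 ≤ sz E W i ∧ sz E W i ≤ 3 := by
  obtain ⟨hbW, hadj, hbF⟩ := mem_ex.1 hb
  obtain ⟨hne, i, hai, hbi⟩ := (hG a b).1 hadj
  have hiF : i ≠ F a := by
    rintro rfl
    exact hbF hbi
  have h2 := two_le_sz haW hbW hai hbi hne
  exact ⟨i, hiF, hai, hbi, h2, std_le_three ha (mem_TT.2 ⟨h2, hai⟩) hiF⟩

theorem ex_symm (hk : 4 ≤ k) {a b : V} (haW : a ∈ W)
    (hb : Std E W k b (F b)) (ha : Std E W k a (F a)) (h : b ∈ ex E G W F a) :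
    a ∈ ex E G W F b := by
  obtain ⟨hbW, hadj, hbF⟩ := mem_ex.1 h
  refine mem_ex.2 ⟨haW, hadj.symm, fun haF => hbF ?_⟩
  rw [← std_unique hk ha hb.2.1 haF]
  exact (mem_TT.1 hb.1).2

/-- Few standard vertices have `b` as an extra neighbour. -/
theorem count_ex (hG : IsAdj E G) (A : Finset V)
    (hA : ∀ a ∈ A, a ∈ W ∧ Std E W k a (F a)) {b : V} (hbW : b ∈ W) :
    ((A.filter fun a => b ∈ ex E G W F a).card : ℚ) ≤ 4 * CC E W b := by
  have h1 : (A.filter fun a => b ∈ ex E G W F a) ⊆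
      ((TT E W b).filter fun i => sz E W i ≤ 3).biUnion fun i => (E i ∩ W).erase b := by
    intro a ha
    obtain ⟨haA, hb⟩ := Finset.mem_filter.1 ha
    obtain ⟨haW, hs⟩ := hA a haA
    obtain ⟨i, hiF, hai, hbi, h2, h3⟩ := ex_edge hG haW hs hb
    refine Finset.mem_biUnion.2 ⟨i, Finset.mem_filter.2 ⟨mem_TT.2 ⟨h2, hbi⟩, h3⟩,
      Finset.mem_erase.2 ⟨?_, Finset.mem_inter.2 ⟨hai, haW⟩⟩⟩
    exact (mem_ex.1 hb).2.1.ne
  have h2 := (Finset.card_le_card h1).trans Finset.card_biUnion_le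
  have h3 : ((∑ i ∈ (TT E W b).filter (fun i => sz E W i ≤ 3), ((E i ∩ W).erase b).card : ℕ) : ℚ)
      = ∑ i ∈ (TT E W b).filter (fun i => sz E W i ≤ 3), 4 * cost (sz E W i) := by
    rw [Nat.cast_sum]
    refine Finset.sum_congr rfl fun i hi => ?_
    obtain ⟨hi, hi3⟩ := Finset.mem_filter.1 hi
    rw [card_erase hbW (mem_TT.1 hi).2, cost_small (mem_TT.1 hi).1 hi3]
  have h4 : ∑ i ∈ (TT E W b).filter (fun i => sz E W i ≤ 3), 4 * cost (sz E W i) ≤
      ∑ i ∈ TT E W b, 4 * cost (sz E W i) := by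
    refine Finset.sum_le_sum_of_subset_of_nonneg (Finset.filter_subset _ _) ?_
    intro i hi _
    have := cost_nonneg (mem_TT.1 hi).1
    linarith
  have h6 : ∑ i ∈ TT E W b, 4 * cost (sz E W i) = 4 * CC E W b := by
    unfold CC
    rw [Finset.mul_sum]
  have h5 : ((A.filter fun a => b ∈ ex E G W F a).card : ℚ) ≤
      ((∑ i ∈ (TT E W b).filter (fun i => sz E W i ≤ 3), ((E i ∩ W).erase b).card : ℕ) : ℚ) := by
    exact_mod_cast h2
  rw [h3] at h5
  exact h5.trans (h4.trans h6.le)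

theorem count_big (hk : 3 ≤ k) (N : Finset ι) (hN : ∀ i ∈ N, sz E W i = k) {b : V} :
    ((N.filter fun i => b ∈ E i).card : ℚ) ≤ 2 * CC E W b := by
  have h1 : (N.filter fun i => b ∈ E i) ⊆ TT E W b := by
    intro i hi
    obtain ⟨hiN, hb⟩ := Finset.mem_filter.1 hi
    exact mem_TT.2 ⟨by rw [hN i hiN]; omega, hb⟩
  unfold CC
  rw [Finset.mul_sum]
  calc ((N.filter fun i => b ∈ E i).card : ℚ) = ∑ i ∈ N.filter (fun i => b ∈ E i), (1 : ℚ) := by
        rw [Finset.sum_const, nsmul_eq_mul, mul_one]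
    _ ≤ ∑ i ∈ N.filter (fun i => b ∈ E i), 2 * cost (sz E W i) := by
        refine Finset.sum_le_sum fun i hi => ?_
        have h2 : 3 ≤ sz E W i := by
          rw [hN i (Finset.mem_filter.1 hi).1]
          exact hk
        have := cost_half h2
        linarith
    _ ≤ _ := by
        refine Finset.sum_le_sum_of_subset_of_nonneg h1 ?_
        intro i hi _
        have := cost_nonneg (mem_TT.1 hi).1
        linarith

/-- The exclusion of diamonds. -/
theorem no_diamond (hG : IsAdj E G) (hlin : Linear E) (hk : 4 ≤ k) {A : Finset V}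
    (hA : ∀ a ∈ A, a ∈ W ∧ Std E W k a (F a)) {N : Finset ι} (hN : ∀ i ∈ N, sz E W i = k)
    (hN3 : ∀ i ∈ N, 3 ≤ (E i ∩ A).card)
    (hD : ¬ Diamond G (fun v => v ∈ W ∧ (nb G W v).card = k + 1)) :
    ∀ a ∈ A, ∀ i ∈ N, ∀ b ∈ A, ∀ b' ∈ A, b ∈ E i → b' ∈ E i → a ∉ E i →
      G.Adj a b → G.Adj a b' → b = b' := by
  intro a ha i hi b hb b' hb' hbi hbi' hai hab hab'
  by_contra hne
  apply hD
  obtain ⟨u, hu⟩ : ∃ u, u ∈ ((E i ∩ A).erase b).erase b' := by
    rw [← Finset.Nonempty, ← Finset.card_pos]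
    have h1 := Finset.pred_card_le_card_erase (s := E i ∩ A) (a := b)
    have h2 := Finset.pred_card_le_card_erase (s := (E i ∩ A).erase b) (a := b')
    have h3 := hN3 i hi
    omega
  obtain ⟨hub', hu⟩ := Finset.mem_erase.1 hu
  obtain ⟨hub, hu⟩ := Finset.mem_erase.1 hu
  obtain ⟨hui, huA⟩ := Finset.mem_inter.1 hu
  have low : ∀ v ∈ A, v ∈ W ∧ (nb G W v).card = k + 1 := fun v hv =>
    ⟨(hA v hv).1, std_low hG hlin hk (hA v hv).1 (hA v hv).2⟩
  have inex : ∀ v ∈ A, v ∈ E i → G.Adj a v → v ∈ ex E G W F a := by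
    intro v hv hvi hadj
    refine mem_ex.2 ⟨(hA v hv).1, hadj, fun hvF => hai ?_⟩
    have h1 := std_unique hk (hA v hv).2 (hN i hi) hvi
    have h2 := std_unique hk (hA v hv).2 (hA a ha).2.2.1 hvF
    rw [h1, ← h2]
    exact (mem_TT.1 (hA a ha).2.1).2
  have adj : ∀ {x y : V}, x ∈ E i → y ∈ E i → x ≠ y → G.Adj x y := fun h1 h2 h3 =>
    (hG _ _).2 ⟨h3, i, h1, h2⟩
  have hau : ¬ G.Adj a u := by
    intro hadj
    have h1 : ({b, b', u} : Finset V) ⊆ ex E G W F a := by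
      intro x hx
      simp only [Finset.mem_insert, Finset.mem_singleton] at hx
      rcases hx with rfl | rfl | rfl
      · exact inex _ hb hbi hab
      · exact inex _ hb' hbi' hab'
      · exact inex _ huA hui hadj
    have h2 := Finset.card_le_card h1
    rw [card_ex hG hlin (hA a ha).1 (hA a ha).2, Finset.card_eq_three.2
      ⟨b, b', u, hne, hub.symm, hub'.symm, rfl⟩] at h2
    omega
  exact ⟨b, b', u, a, low b hb, low b' hb', low u huA, low a ha, adj hbi hbi' hne,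
    adj hbi hui hub.symm, adj hbi' hui hub'.symm, hab, hab', hau, fun h => hai (by rw [h]; exact hui)⟩

/-- The exclusion of houses. -/
theorem no_house (hG : IsAdj E G) (hlin : Linear E) (hk : 4 ≤ k) {A : Finset V}
    (hA : ∀ a ∈ A, a ∈ W ∧ Std E W k a (F a)) {N : Finset ι} (hN : ∀ i ∈ N, sz E W i = k)
    (hN3 : ∀ i ∈ N, 3 ≤ (E i ∩ A).card)
    (hD : ¬ Diamond G (fun v => v ∈ W ∧ (nb G W v).card = k + 1))
    (hH : ¬ House G (fun v => v ∈ W ∧ (nb G W v).card = k + 1)) :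
    ∀ i ∈ N, ∀ i' ∈ N, i ≠ i' → ∀ a ∈ A, ∀ a' ∈ A, ∀ b ∈ A, ∀ b' ∈ A,
      a ∈ E i → a' ∈ E i → b ∈ E i' → b' ∈ E i' → G.Adj a b → G.Adj a' b' → a ≠ a' → b ≠ b' →
      False := by
  intro i hi i' hi' hii a ha a' ha' b hb b' hb' hai hai' hbi hbi' hab hab' hne hne'
  have no1 := no_diamond hG hlin hk hA hN hN3 hD
  apply hH
  obtain ⟨u, hu⟩ : ∃ u, u ∈ ((E i ∩ A).erase a).erase a' := by
    rw [← Finset.Nonempty, ← Finset.card_pos]
    have h1 := Finset.pred_card_le_card_erase (s := E i ∩ A) (a := a)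
    have h2 := Finset.pred_card_le_card_erase (s := (E i ∩ A).erase a) (a := a')
    have h3 := hN3 i hi
    omega
  obtain ⟨hua', hu⟩ := Finset.mem_erase.1 hu
  obtain ⟨hua, hu⟩ := Finset.mem_erase.1 hu
  obtain ⟨hui, huA⟩ := Finset.mem_inter.1 hu
  have low : ∀ v ∈ A, v ∈ W ∧ (nb G W v).card = k + 1 := fun v hv =>
    ⟨(hA v hv).1, std_low hG hlin hk (hA v hv).1 (hA v hv).2⟩
  have sep : ∀ v ∈ A, v ∈ E i → v ∉ E i' := by
    intro v hv h1 h2
    exact hii ((std_unique hk (hA v hv).2 (hN i hi) h1).trans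
      (std_unique hk (hA v hv).2 (hN i' hi') h2).symm)
  have adj : ∀ {j : ι} {x y : V}, x ∈ E j → y ∈ E j → x ≠ y → G.Adj x y := fun h1 h2 h3 =>
    (hG _ _).2 ⟨h3, _, h1, h2⟩
  have sep' : ∀ v ∈ A, v ∈ E i' → v ∉ E i := fun v hv h1 h2 => sep v hv h2 h1
  have n1 : ¬ G.Adj a b' := fun h =>
    hne' (no1 a ha i' hi' b hb b' hb' hbi hbi' (sep a ha hai) hab h)
  have n2 : ¬ G.Adj a' b := fun h =>
    hne' (no1 a' ha' i' hi' b hb b' hb' hbi hbi' (sep a' ha' hai') h hab')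
  have n3 : ¬ G.Adj u b := fun h =>
    hua (no1 b hb i hi u huA a ha hui hai (sep' b hb hbi) h.symm hab.symm)
  have n4 : ¬ G.Adj u b' := fun h =>
    hua' (no1 b' hb' i hi u huA a' ha' hui hai' (sep' b' hb' hbi') h.symm hab'.symm)
  exact ⟨a, a', u, b, b', low a ha, low a' ha', low u huA, low b hb, low b' hb',
    adj hai hai' hne, adj hai hui hua.symm, adj hai' hui hua'.symm, adj hbi hbi' hne',
    hab, hab', n1, n2, n3, n4, fun h => sep a ha hai (by rw [h]; exact hbi'),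
    fun h => sep a' ha' hai' (by rw [h]; exact hbi), fun h => sep u huA hui (by rw [h]; exact hbi),
    fun h => sep u huA hui (by rw [h]; exact hbi')⟩

end Q102.RG
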