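import Pool.Agent.Q102.RG.Small2
import Pool.Agent.Q102.RG.Count

/-!
# Partitions into forests: extension to a diamond or a house of low vertices
-/

set_option autoImplicit false
set_option linter.unusedSectionVars false

namespace Q102.RG

open SimpleGraph Classical

variable {V : Type} [Fintype V]

/-- No cycle of `G` stays in `S`. -/
def AcOn (G : SimpleGraph V) (S : Set V) : Prop :=
  ∀ (u : V) (p : G.Walk u u), p.IsCycle → ∃ v ∈ p.support, v ∉ S

theorem acOn_insert {G : SimpleGraph V} {S : Set V} (h : AcOn G S) {x : V}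
    (hx : ∀ a ∈ S, ∀ b ∈ S, G.Adj x a → G.Adj x b → a = b) : AcOn G (insert x S) := by
  intro u p hp
  by_contra hcon
  push Not at hcon
  by_cases hxp : x ∈ p.support
  · have hq : (p.rotate x hxp).IsCycle := hp.rotate hxp
    set q := p.rotate x hxp with hqdef
    have hsup : ∀ v ∈ q.support, v ∈ insert x S := by
      intro v hv
      apply hcon
      rw [hqdef] at hv
      exact (SimpleGraph.Walk.mem_support_rotate_iff ..).1 hv
    have h1 : G.Adj x q.snd := q.adj_snd hq.not_nil
    have h2 : G.Adj x q.penultimate := (q.adj_penultimate hq.not_nil).symm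
    have h3 : q.snd ∈ S := by
      rcases hsup _ (q.getVert_mem_support 1) with h | h
      · exact absurd h h1.ne.symm
      · exact h
    have h4 : q.penultimate ∈ S := by
      rcases hsup _ (q.getVert_mem_support _) with h | h
      · exact absurd h h2.ne.symm
      · exact h
    exact hq.snd_ne_penultimate (hx _ h3 _ h4 h1 h2)
  · obtain ⟨v, hv, hvS⟩ := h u p hp
    rcases hcon v hv with rfl | h
    · exact hxp hv
    · exact hvS h

theorem AcOn.isAcyclic {G : SimpleGraph V} {S : Set V} (h : AcOn G S) :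
    (G.induce S).IsAcyclic := by
  intro u p hp
  have h1 : (p.map (Embedding.induce (G := G) S).toHom).IsCycle :=
    hp.map (Embedding.induce (G := G) S).injective
  obtain ⟨v, hv, hvS⟩ := h _ _ h1
  rw [Walk.support_map, List.mem_map] at hv
  obtain ⟨w, -, rfl⟩ := hv
  exact hvS w.2

/-- The colour classes in `U` induce forests. -/
def Good (G : SimpleGraph V) {K : Type} (c : V → K) (U : Finset V) : Prop :=
  ∀ i, AcOn G {v | v ∈ U ∧ c v = i}

/-- The number of neighbours of `x` in `U` of colour `i`. -/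
noncomputable def cnt (G : SimpleGraph V) {K : Type} (c : V → K) (U : Finset V) (x : V) (i : K) :
    ℕ := (U.filter fun v => G.Adj x v ∧ c v = i).card

theorem cnt_step (G : SimpleGraph V) {K : Type} (c : V → K) (U : Finset V) (x : V) (hx : x ∉ U)
    (i : K) (y : V) (j : K) :
    cnt G (Function.update c x i) (insert x U) y j
      = cnt G c U y j + if G.Adj y x ∧ j = i then 1 else 0 := by
  unfold cnt
  have h1 : ∀ v ∈ U, Function.update c x i v = c v := by
    intro v hv
    refine Function.update_of_ne ?_ _ _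
    rintro rfl
    exact hx hv
  rw [Finset.filter_insert]
  have h2 : U.filter (fun v => G.Adj y v ∧ Function.update c x i v = j)
      = U.filter fun v => G.Adj y v ∧ c v = j := by
    refine Finset.filter_congr fun v hv => ?_
    rw [h1 v hv]
  rw [h2, Function.update_self]
  by_cases h3 : G.Adj y x ∧ j = i
  · rw [if_pos ⟨h3.1, h3.2.symm⟩, if_pos h3, Finset.card_insert_of_notMem]
    exact fun h => hx (Finset.mem_filter.1 h).1
  · rw [if_neg (fun h => h3 ⟨h.1, h.2.symm⟩), if_neg h3, add_zero]

theorem good_insert {G : SimpleGraph V} {K : Type} {c : V → K} {U : Finset V} (h : Good G c U)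
    {x : V} (hx : x ∉ U) {i : K} (hi : cnt G c U x i < 2) :
    Good G (Function.update c x i) (insert x U) := by
  intro j
  have h1 : ∀ v ∈ U, Function.update c x i v = c v := by
    intro v hv
    refine Function.update_of_ne ?_ _ _
    rintro rfl
    exact hx hv
  by_cases hij : j = i
  · subst hij
    have h2 : {v | v ∈ insert x U ∧ Function.update c x j v = j} ⊆
        insert x {v | v ∈ U ∧ c v = j} := by
      rintro v ⟨hv, hc⟩
      rcases Finset.mem_insert.1 hv with rfl | hv
      · exact Or.inl rfl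
      · exact Or.inr ⟨hv, by rw [← h1 v hv]; exact hc⟩
    have h3 : AcOn G (insert x {v | v ∈ U ∧ c v = j}) := by
      refine acOn_insert (h j) ?_
      rintro a ⟨ha, hca⟩ b ⟨hb, hcb⟩ hxa hxb
      have h4 : (U.filter fun v => G.Adj x v ∧ c v = j).card ≤ 1 := Nat.le_of_lt_succ hi
      exact Finset.card_le_one.1 h4 a (Finset.mem_filter.2 ⟨ha, hxa, hca⟩) b
        (Finset.mem_filter.2 ⟨hb, hxb, hcb⟩)
    intro u p hp
    obtain ⟨v, hv, hvS⟩ := h3 u p hp
    exact ⟨v, hv, fun h => hvS (h2 h)⟩
  · intro u p hp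
    obtain ⟨v, hv, hvS⟩ := h j u p hp
    refine ⟨v, hv, ?_⟩
    rintro ⟨hvU, hc⟩
    rcases Finset.mem_insert.1 hvU with rfl | hvU
    · rw [Function.update_self] at hc
      exact hij hc.symm
    · exact hvS ⟨hvU, by rw [← h1 v hvU]; exact hc⟩

theorem good_ext {G : SimpleGraph V} {K : Type} : ∀ (l : List V) (U : Finset V) (c : V → K)
    (_ : l.Nodup) (_ : ∀ x ∈ l, x ∉ U) (_ : Good G c U)
    (_ : Ext 2 G.Adj l (cnt G c U)), ∃ c' : V → K, Good G c' (U ∪ l.toFinset) := by
  intro l
  induction l with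
  | nil =>
    intro U c _ _ h _
    exact ⟨c, by simpa using h⟩
  | cons x l ih =>
    rintro U c hnd hdis h ⟨i, hi, hext⟩
    obtain ⟨hxl, hnd⟩ := List.nodup_cons.1 hnd
    have hxU := hdis x List.mem_cons_self
    have h1 := good_insert h hxU hi
    have h2 : (fun y j => cnt G c U y j + if G.Adj y x ∧ j = i then 1 else 0)
        = cnt G (Function.update c x i) (insert x U) := by
      funext y j
      exact (cnt_step G c U x hxU i y j).symm
    rw [h2] at hext
    obtain ⟨c', hc'⟩ := ih (insert x U) _ hnd (by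
      intro y hy
      rw [Finset.mem_insert, not_or]
      exact ⟨fun h => hxl (h ▸ hy), hdis y (List.mem_cons_of_mem _ hy)⟩) h1 hext
    refine ⟨c', ?_⟩
    have h3 : insert x U ∪ l.toFinset = U ∪ (x :: l).toFinset := by
      ext v
      simp only [Finset.mem_union, Finset.mem_insert, List.toFinset_cons]
      tauto
    rw [← h3]
    exact hc'

/-- The number of coloured neighbours. -/
theorem sum_cnt (G : SimpleGraph V) {K : Type} [Fintype K] (c : V → K) (U : Finset V) (x : V) :
    ∑ i, cnt G c U x i = (nb G U x).card := by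
  unfold cnt nb
  rw [Finset.card_eq_sum_card_fiberwise (f := c) (t := Finset.univ) (fun v _ => Finset.mem_univ _)]
  refine Finset.sum_congr rfl fun i _ => ?_
  rw [Finset.filter_filter]

/-- The neighbours inside and outside of an embedded small graph. -/
theorem nb_split (G : SimpleGraph V) (W : Finset V) {n : ℕ} (r : Fin n → Fin n → Bool)
    (e : Fin n → V) (he : Function.Injective e) (heW : ∀ a, e a ∈ W)
    (hadj : ∀ a b, G.Adj (e a) (e b) ↔ r a b = true) (a : Fin n) :
    (nb G (W \ Finset.univ.image e) (e a)).card + (Finset.univ.filter fun b => r a b = true).card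
      = (nb G W (e a)).card := by
  have h1 : nb G W (e a) = nb G (W \ Finset.univ.image e) (e a) ∪
      (Finset.univ.filter fun b => r a b = true).image e := by
    ext v
    rw [Finset.mem_union, mem_nb, mem_nb, Finset.mem_sdiff]
    constructor
    · rintro ⟨hv, ha⟩
      by_cases h : v ∈ Finset.univ.image e
      · obtain ⟨b, -, rfl⟩ := Finset.mem_image.1 h
        exact Or.inr (Finset.mem_image.2 ⟨b, Finset.mem_filter.2 ⟨Finset.mem_univ _,
          (hadj a b).1 ha⟩, rfl⟩)
      · exact Or.inl ⟨⟨hv, h⟩, ha⟩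
    · rintro (⟨⟨hv, -⟩, ha⟩ | h)
      · exact ⟨hv, ha⟩
      · obtain ⟨b, hb, rfl⟩ := Finset.mem_image.1 h
        exact ⟨heW b, (hadj a b).2 (Finset.mem_filter.1 hb).2⟩
  rw [h1, Finset.card_union_of_disjoint, Finset.card_image_of_injective _ he]
  refine Finset.disjoint_left.2 fun v h2 h3 => ?_
  obtain ⟨b, -, rfl⟩ := Finset.mem_image.1 h3
  exact (Finset.mem_sdiff.1 (mem_nb.1 h2).1).2 (Finset.mem_image_of_mem e (Finset.mem_univ b))

/-- A small graph of low vertices with the extension property contradicts minimality. -/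
theorem config_false {G : SimpleGraph V} {W : Finset V} {q n : ℕ}
    (hmin : ∀ U, U ⊂ W → ∃ c : V → Fin q, Good G c U) (hnot : ¬ ∃ c : V → Fin q, Good G c W)
    (r : Fin n → Fin n → Bool) (d : Fin n → ℕ)
    (hd : ∀ a, d a = (Finset.univ.filter fun b => r a b = true).card) (hn : 0 < n)
    (e : Fin n → V) (he : Function.Injective e)
    (hlow : ∀ a, e a ∈ W ∧ (nb G W (e a)).card = 2 * q)
    (hadj : ∀ a b, G.Adj (e a) (e b) ↔ r a b = true)
    (hext : ∀ f : Fin n → Fin q → ℕ, (∀ x, SS 2 f x + d x ≤ 2 * Fintype.card (Fin q)) →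
      ∃ l : List (Fin n), l.Nodup ∧ (∀ x, x ∈ l) ∧ Ext 2 (fun a b => r a b = true) l f) :
    False := by
  set U := W \ Finset.univ.image e with hU
  have hUW : U ⊂ W := by
    refine (Finset.ssubset_iff_of_subset Finset.sdiff_subset).2 ⟨e ⟨0, hn⟩, (hlow _).1, ?_⟩
    rw [Finset.mem_sdiff, not_and_not_right]
    exact fun _ => Finset.mem_image_of_mem e (Finset.mem_univ _)
  obtain ⟨c, hc⟩ := hmin U hUW
  obtain ⟨l, hl1, hl2, hl3⟩ := hext (fun a => cnt G c U (e a)) (by
    intro x
    have h1 : SS 2 (fun a => cnt G c U (e a)) x ≤ ∑ i, cnt G c U (e x) i := by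
      unfold SS
      exact Finset.sum_le_sum fun i _ => min_le_right _ _
    have h2 := nb_split G W r e he (fun a => (hlow a).1) hadj x
    rw [← hU, (hlow x).2, ← hd] at h2
    rw [sum_cnt] at h1
    rw [Fintype.card_fin]
    omega)
  have h1 : Ext 2 G.Adj (l.map e) (cnt G c U) := ext_map 2 e hadj l _ hl3
  obtain ⟨c', hc'⟩ := good_ext (l.map e) U c (hl1.map he) (by
    intro x hx
    obtain ⟨a, -, rfl⟩ := List.mem_map.1 hx
    rw [hU, Finset.mem_sdiff, not_and_not_right]
    exact fun _ => Finset.mem_image_of_mem e (Finset.mem_univ _)) hc h1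
  apply hnot
  refine ⟨c', ?_⟩
  have h2 : U ∪ (l.map e).toFinset = W := by
    ext v
    rw [Finset.mem_union, hU, Finset.mem_sdiff, List.mem_toFinset, List.mem_map]
    constructor
    · rintro (h | ⟨a, -, rfl⟩)
      · exact h.1
      · exact (hlow a).1
    · intro hv
      by_cases h : v ∈ Finset.univ.image e
      · obtain ⟨a, -, rfl⟩ := Finset.mem_image.1 h
        exact Or.inr ⟨a, hl2 a, rfl⟩
      · exact Or.inl ⟨hv, h⟩
  rw [← h2]
  exact hc'

theorem diamond_emb {G : SimpleGraph V} {P : V → Prop} (h : Diamond G P) :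
    ∃ e : Fin 4 → V, Function.Injective e ∧ (∀ a, P (e a)) ∧
      ∀ a b, G.Adj (e a) (e b) ↔ dia a b = true := by
  obtain ⟨u₁, u₂, u₃, w, p1, p2, p3, p4, h12, h13, h23, hw1, hw2, hw3, hne⟩ := h
  have a1 : ∀ a b, G.Adj (![u₁, u₂, u₃, w] a) (![u₁, u₂, u₃, w] b) ↔ dia a b = true := by
    have t : ∀ {x y : V}, G.Adj x y → (G.Adj y x) := fun h => h.symm
    have n : ∀ {x y : V}, ¬ G.Adj x y → ¬ G.Adj y x := fun h h' => h h'.symm
    intro a b
    fin_cases a <;> fin_cases b <;>
      simp [dia, h12, h13, h23, hw1, hw2, hw3, t h12, t h13, t h23, t hw1, t hw2, n hw3]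
  refine ⟨![u₁, u₂, u₃, w], ?_, ?_, a1⟩
  · intro a b hab
    fin_cases a <;> fin_cases b <;> simp_all [h12.ne, h13.ne, h23.ne, hw1.ne, hw2.ne]
  · intro a
    fin_cases a <;> assumption

end Q102.RG
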