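import Pool.Agent.Q102.RG.Arb

/-!
# List colourings of graphs of bounded reduced genus and large clique number
-/

set_option autoImplicit false
set_option linter.unusedSectionVars false

namespace Q102.RG

open SimpleGraph Classical Q127.Surf

variable {V : Type} [Fintype V]

/-- Colourings of `U` from the lists. -/
def LGood (G : SimpleGraph V) {K : Type} (L : V → Finset K) (c : V → K) (U : Finset V) : Prop :=
  ∀ v ∈ U, c v ∈ L v ∧ ∀ w ∈ U, G.Adj v w → c v ≠ c w

/-- The blocked colours. -/
noncomputable def blk {K : Type} (L : V → Finset K) (x : V) (i : K) : ℕ := if i ∈ L x then 0 else 1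

theorem lgood_insert {G : SimpleGraph V} {K : Type} {L : V → Finset K} {c : V → K} {U : Finset V}
    (h : LGood G L c U) {x : V} (hx : x ∉ U) {i : K} (hi : blk L x i + cnt G c U x i < 1) :
    LGood G L (Function.update c x i) (insert x U) := by
  have h1 : ∀ v ∈ U, Function.update c x i v = c v := by
    intro v hv
    refine Function.update_of_ne ?_ _ _
    rintro rfl
    exact hx hv
  have hL : i ∈ L x := by
    by_contra hcon
    unfold blk at hi
    rw [if_neg hcon] at hi
    omega
  have hc : ∀ v ∈ U, G.Adj x v → c v ≠ i := by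
    intro v hv hadj hcv
    have h2 : 0 < cnt G c U x i := by
      unfold cnt
      exact Finset.card_pos.2 ⟨v, Finset.mem_filter.2 ⟨hv, hadj, hcv⟩⟩
    omega
  intro v hv0
  rcases Finset.mem_insert.1 hv0 with rfl | hv
  · rw [Function.update_self]
    refine ⟨hL, fun w hw0 hadj => ?_⟩
    rcases Finset.mem_insert.1 hw0 with rfl | hw
    · exact absurd hadj (G.loopless.irrefl _)
    · rw [h1 w hw]
      exact (hc w hw hadj).symm
  · rw [h1 v hv]
    refine ⟨(h v hv).1, fun w hw0 hadj => ?_⟩
    rcases Finset.mem_insert.1 hw0 with rfl | hw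
    · rw [Function.update_self]
      exact hc v hv hadj.symm
    · rw [h1 w hw]
      exact (h v hv).2 w hw hadj

theorem lgood_ext {G : SimpleGraph V} {K : Type} {L : V → Finset K} :
    ∀ (l : List V) (U : Finset V) (c : V → K)
    (_ : l.Nodup) (_ : ∀ x ∈ l, x ∉ U) (_ : LGood G L c U)
    (_ : Ext 1 G.Adj l (fun x i => blk L x i + cnt G c U x i)),
      ∃ c' : V → K, LGood G L c' (U ∪ l.toFinset) := by
  intro l
  induction l with
  | nil =>
    intro U c _ _ h _
    exact ⟨c, by simpa using h⟩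
  | cons x l ih =>
    rintro U c hnd hdis h ⟨i, hi, hext⟩
    obtain ⟨hxl, hnd⟩ := List.nodup_cons.1 hnd
    have hxU := hdis x List.mem_cons_self
    have h1 := lgood_insert h hxU hi
    have h2 : (fun y j => (blk L y j + cnt G c U y j) + if G.Adj y x ∧ j = i then 1 else 0)
        = fun y j => blk L y j + cnt G (Function.update c x i) (insert x U) y j := by
      funext y j
      rw [cnt_step G c U x hxU i y j, add_assoc]
    rw [h2] at hext
    obtain ⟨c', hc'⟩ := ih (insert x U) _ hnd (by
      intro y hy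
      rw [Finset.mem_insert, not_or]
      exact ⟨fun h => hxl (h ▸ hy), hdis y (List.mem_cons_of_mem _ hy)⟩) h1 hext
    refine ⟨c', ?_⟩
    have h3 : insert x U ∪ l.toFinset = U ∪ (x :: l).toFinset := by
      ext v
      simp only [Finset.mem_union, Finset.mem_insert, List.toFinset_cons]
      tauto
    rw [← h3]
    exact hc'

theorem sum_blk {K : Type} [Fintype K] (L : V → Finset K) (x : V) :
    ∑ i, blk L x i + (L x).card = Fintype.card K := by
  unfold blk
  have h1 : ∑ i : K, (if i ∈ L x then 0 else 1) = (Finset.univ.filter fun i => i ∉ L x).card := by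
    rw [Finset.card_filter]
    refine Finset.sum_congr rfl fun i _ => ?_
    by_cases h : i ∈ L x <;> simp [h]
  rw [h1]
  have h2 : (Finset.univ.filter fun i => i ∈ L x) = L x := by
    ext i
    simp
  have h3 := Finset.card_filter_add_card_filter_not (s := (Finset.univ : Finset K))
    (fun i => i ∈ L x)
  rw [h2, Finset.card_univ] at h3
  omega

theorem lconfig_false {G : SimpleGraph V} {K : Type} [Fintype K] {L : V → Finset K}
    {W : Finset V} {n : ℕ}
    (hmin : ∀ U, U ⊂ W → ∃ c : V → K, LGood G L c U) (hnot : ¬ ∃ c : V → K, LGood G L c W)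
    (r : Fin n → Fin n → Bool) (d : Fin n → ℕ)
    (hd : ∀ a, d a = (Finset.univ.filter fun b => r a b = true).card) (hn : 0 < n)
    (e : Fin n → V) (he : Function.Injective e)
    (hlow : ∀ a, e a ∈ W ∧ (nb G W (e a)).card = (L (e a)).card)
    (hadj : ∀ a b, G.Adj (e a) (e b) ↔ r a b = true)
    (hext : ∀ f : Fin n → K → ℕ, (∀ x, SS 1 f x + d x ≤ 1 * Fintype.card K) →
      ∃ l : List (Fin n), l.Nodup ∧ (∀ x, x ∈ l) ∧ Ext 1 (fun a b => r a b = true) l f) :
    False := by
  set U := W \ Finset.univ.image e with hU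
  have hUW : U ⊂ W := by
    refine (Finset.ssubset_iff_of_subset Finset.sdiff_subset).2 ⟨e ⟨0, hn⟩, (hlow _).1, ?_⟩
    rw [Finset.mem_sdiff, not_and_not_right]
    exact fun _ => Finset.mem_image_of_mem e (Finset.mem_univ _)
  obtain ⟨c, hc⟩ := hmin U hUW
  obtain ⟨l, hl1, hl2, hl3⟩ := hext (fun a i => blk L (e a) i + cnt G c U (e a) i) (by
    intro x
    have h1 : SS 1 (fun a i => blk L (e a) i + cnt G c U (e a) i) x ≤
        ∑ i, (blk L (e x) i + cnt G c U (e x) i) := by
      unfold SS
      exact Finset.sum_le_sum fun i _ => min_le_right _ _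
    have h2 := nb_split G W r e he (fun a => (hlow a).1) hadj x
    rw [← hU, (hlow x).2, ← hd] at h2
    rw [Finset.sum_add_distrib, sum_cnt] at h1
    have h3 := sum_blk L (e x)
    omega)
  have h1 : Ext 1 G.Adj (l.map e) (fun x i => blk L x i + cnt G c U x i) :=
    ext_map 1 e hadj l _ hl3
  obtain ⟨c', hc'⟩ := lgood_ext (l.map e) U c (hl1.map he) (by
    intro x hx
    obtain ⟨a, -, rfl⟩ := List.mem_map.1 hx
    rw [hU, Finset.mem_sdiff, not_and_not_right]
    exact fun _ => Finset.mem_image_of_mem e (Finset.mem_univ _)) hc h1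
  apply hnot
  refine ⟨c', ?_⟩
  have h2 : U ∪ (l.map e).toFinset = W := by
    ext v
    rw [Finset.mem_union, hU, Finset.mem_sdiff, List.mem_toFinset, List.mem_map]
    constructor
    · rintro (h | ⟨a, -, rfl⟩)
      · exact h.1
      · exact (hlow a).1
    · intro hv
      by_cases h : v ∈ Finset.univ.image e
      · obtain ⟨a, -, rfl⟩ := Finset.mem_image.1 h
        exact Or.inr ⟨a, hl2 a, rfl⟩
      · exact Or.inl ⟨hv, h⟩
  rw [← h2]
  exact hc'

/-- `G` is `k`-choosable. -/
def Choosable {V : Type} (G : SimpleGraph V) (k : ℕ) : Prop :=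
  ∀ L : V → Finset ℕ, (∀ v, (L v).card = k) →
    ∃ f : V → ℕ, (∀ v, f v ∈ L v) ∧ ∀ u v, G.Adj u v → f u ≠ f v

theorem choosable_of (g k : ℕ) {G : SimpleGraph V} (hred : HasReducedGenus G g)
    (hk : 310 * (g + 1) ≤ k) (hω : G.cliqueNum ≤ k) : Choosable G (k + 1) := by
  obtain ⟨⟨ι, hfin, E, hE, ⟨⟨σ, hσ, hg⟩, -⟩⟩, -⟩ := hred
  have := hfin
  have : Fintype ι := Fintype.ofFinite ι
  intro L₀ hL₀
  set M : Finset ℕ := Finset.univ.biUnion L₀ with hM
  set L : V → Finset {i // i ∈ M} := fun v => (L₀ v).subtype (fun i => i ∈ M) with hL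
  have hLcard : ∀ v, (L v).card = k + 1 := by
    intro v
    rw [hL, Finset.card_subtype, ← hL₀ v]
    congr 1
    refine Finset.filter_true_of_mem fun i hi => ?_
    exact Finset.mem_biUnion.2 ⟨v, Finset.mem_univ _, hi⟩
  suffices h : ∃ c : V → {i // i ∈ M}, LGood G L c Finset.univ by
    obtain ⟨c, hc⟩ := h
    refine ⟨fun v => (c v).1, fun v => ?_, fun u v hadj h => ?_⟩
    · exact Finset.mem_subtype.1 (hc v (Finset.mem_univ _)).1
    · exact (hc u (Finset.mem_univ _)).2 v (Finset.mem_univ _) hadj (Subtype.ext h)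
  by_contra hnot
  obtain ⟨W, hW, hmin⟩ : ∃ W : Finset V, (¬ ∃ c : V → {i // i ∈ M}, LGood G L c W) ∧
      ∀ U, U ⊂ W → ∃ c : V → {i // i ∈ M}, LGood G L c U := by
    have h1 : ∃ W : Finset V, ¬ ∃ c : V → {i // i ∈ M}, LGood G L c W := ⟨Finset.univ, hnot⟩
    obtain ⟨W, hW, hm⟩ := WellFounded.has_min (wellFounded_lt (α := Finset V))
      {W | ¬ ∃ c : V → {i // i ∈ M}, LGood G L c W} h1
    refine ⟨W, hW, fun U hU => ?_⟩
    by_contra hcon
    exact hm U hcon hU
  have hne : ∀ v : V, ∃ i, i ∈ L v := fun v =>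
    Finset.card_pos.1 (by rw [hLcard v]; omega)
  have hWne : W.Nonempty := by
    rw [Finset.nonempty_iff_ne_empty]
    rintro rfl
    exact hW ⟨fun v => (hne v).choose, fun v hv => absurd hv (Finset.notMem_empty _)⟩
  have hdeg : ∀ v ∈ W, k + 1 ≤ (nb G W v).card := by
    intro v hv
    by_contra hcon
    push Not at hcon
    obtain ⟨c, hc⟩ := hmin _ (Finset.erase_ssubset hv)
    have h1 : ∑ i, (blk L v i + cnt G c (W.erase v) v i) < Fintype.card {i // i ∈ M} := by
      rw [Finset.sum_add_distrib, sum_cnt]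
      have h2 := sum_blk L v
      have h3 := Finset.card_le_card (nb_erase G W v)
      rw [hLcard v] at h2
      omega
    obtain ⟨i, hi⟩ : ∃ i, blk L v i + cnt G c (W.erase v) v i < 1 := by
      by_contra hcon2
      push Not at hcon2
      have h2 : ∑ i : {i // i ∈ M}, 1 ≤ ∑ i, (blk L v i + cnt G c (W.erase v) v i) :=
        Finset.sum_le_sum fun i _ => hcon2 i
      rw [Finset.sum_const, Finset.card_univ, smul_eq_mul, mul_one] at h2
      omega
    have h3 := lgood_insert hc (Finset.notMem_erase v W) hi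
    rw [Finset.insert_erase hv] at h3
    exact hW ⟨_, h3⟩
  have hadj := isAdj_of hE
  have hst := structure_thm (W := W) (k := k) g hk hadj (linear_of hE) hσ hg
    (fun i => (sz_le hadj W i).trans hω) hWne hdeg
  have hlow : ∀ v : V, (v ∈ W ∧ (nb G W v).card = k + 1) →
      v ∈ W ∧ (nb G W v).card = (L v).card := by
    rintro v ⟨h1, h2⟩
    exact ⟨h1, by rw [h2, hLcard]⟩
  rcases hst with h | h
  · obtain ⟨e, he, hP, ha⟩ := diamond_emb h
    exact lconfig_false hmin hW dia (dgB dia [0, 1, 2, 3]) (by decide) (by norm_num) e he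
      (fun a => hlow _ (hP a)) ha (fun f hf => dia_ext1 f hf)
  · obtain ⟨e, he, hP, ha⟩ := house_emb h
    exact lconfig_false hmin hW hou (dgB hou [0, 1, 2, 3, 4]) (by decide) (by norm_num) e he
      (fun a => hlow _ (hP a)) ha (fun f hf => hou_ext1 f hf)

end Q102.RG
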