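import Pool.Agent.Q102.RG.Ext

/-!
# The diamond and the house can be coloured
-/

set_option autoImplicit false

namespace Q102.RG

open Classical

variable {K : Type}

/-- `K₄` minus the edge `23`. -/
def dia (a b : Fin 4) : Bool :=
  (a, b) ∈ [(0, 1), (0, 2), (1, 2), (3, 0), (3, 1), (1, 0), (2, 0), (2, 1), (0, 3), (1, 3)]

/-- The triangle `012` and the 4-cycle `0143`. -/
def hou (a b : Fin 5) : Bool :=
  (a, b) ∈ [(0, 1), (0, 2), (1, 2), (3, 4), (0, 3), (1, 4), (1, 0), (2, 0), (2, 1), (4, 3), (3, 0),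
    (4, 1)]

/-- Decidable version of `OrdOK`. -/
def ordB {n : ℕ} (r : Fin n → Fin n → Bool) : List (Fin n) → Bool
  | [] => true
  | [_] => true
  | x :: y :: l => ((y :: l).any fun z => r x z) && ordB r (y :: l)

theorem ordOK_of {n : ℕ} (r : Fin n → Fin n → Bool) : ∀ l : List (Fin n), ordB r l = true →
    OrdOK (fun a b => r a b = true) l
  | [] => fun _ => trivial
  | [_] => fun _ => trivial
  | x :: y :: l => fun h => by
    unfold ordB at h
    rw [Bool.and_eq_true, List.any_eq_true] at h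
    exact ⟨h.1, ordOK_of r (y :: l) h.2⟩

/-- Degrees. -/
def dgB {n : ℕ} (r : Fin n → Fin n → Bool) (l : List (Fin n)) (x : Fin n) : ℕ :=
  (l.filter fun z => r x z).length

theorem dg_eq {n : ℕ} (r : Fin n → Fin n → Bool) (l : List (Fin n)) (x : Fin n) :
    dg (fun a b => r a b = true) l x = dgB r l x := by
  unfold dg dgB
  congr 1
  refine List.filter_congr fun z _ => ?_
  simp

/-- Orders of the vertices which end at a given vertex. -/
def ord4 : Fin 4 → List (Fin 4) := ![[2, 3, 1, 0], [2, 3, 0, 1], [3, 0, 1, 2], [2, 0, 1, 3]]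

/-- Orders of the remaining vertices which end at a given vertex. -/
def ord4' : Fin 4 → Fin 4 → List (Fin 4) :=
  ![![[], [2, 3, 1], [3, 1, 2], [2, 1, 3]], ![[2, 3, 0], [], [3, 0, 2], [2, 0, 3]],
    ![[3, 1, 0], [3, 0, 1], [], []], ![[2, 1, 0], [2, 0, 1], [], []]]

/-- Orders of the vertices which end at a given vertex. -/
def ord5 : Fin 5 → List (Fin 5) :=
  ![[3, 4, 2, 1, 0], [4, 3, 2, 0, 1], [3, 4, 0, 1, 2], [2, 0, 1, 4, 3], [2, 1, 0, 3, 4]]

/-- Orders of the remaining vertices which end at a given vertex. -/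
def ord5' : Fin 5 → Fin 5 → List (Fin 5) :=
  ![![[], [3, 4, 2, 1], [3, 4, 1, 2], [2, 1, 4, 3], []],
    ![[4, 3, 2, 0], [], [4, 3, 0, 2], [], [2, 0, 3, 4]],
    ![[3, 4, 1, 0], [4, 3, 0, 1], [], [], []],
    ![[4, 2, 1, 0], [], [], [], [2, 0, 1, 4]],
    ![[], [3, 2, 0, 1], [], [2, 1, 0, 3], []]]

theorem ord4_ok : ∀ y, (ord4 y).Nodup ∧ (∀ x, x ∈ ord4 y) ∧ ordB dia (ord4 y) = true ∧
    (ord4 y).getLast? = some y ∧ ∀ x, dgB dia (ord4 y) x = dgB dia [0, 1, 2, 3] x := by decide

theorem ord5_ok : ∀ y, (ord5 y).Nodup ∧ (∀ x, x ∈ ord5 y) ∧ ordB hou (ord5 y) = true ∧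
    (ord5 y).getLast? = some y ∧ ∀ x, dgB hou (ord5 y) x = dgB hou [0, 1, 2, 3, 4] x := by decide

theorem ord4'_ok : ∀ x y, dia x y = true → (x :: ord4' x y).Nodup ∧ (∀ z, z ∈ x :: ord4' x y) ∧
    ordB dia (ord4' x y) = true ∧
    (ord4' x y).getLast? = some y ∧ ∀ z, dgB dia (x :: ord4' x y) z = dgB dia [0, 1, 2, 3] z := by
  decide

theorem ord5'_ok : ∀ x y, hou x y = true → (x :: ord5' x y).Nodup ∧ (∀ z, z ∈ x :: ord5' x y) ∧
    ordB hou (ord5' x y) = true ∧
    (ord5' x y).getLast? = some y ∧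
      ∀ z, dgB hou (x :: ord5' x y) z = dgB hou [0, 1, 2, 3, 4] z := by
  decide

theorem dia_symm : ∀ x y, dia x y = true → dia y x = true := by decide

theorem hou_symm : ∀ x y, hou x y = true → hou y x = true := by decide

/-- Either the vertices can be coloured, or all degrees are sharp and free colours propagate. -/
theorem reduce [Fintype K] {n : ℕ} (r : Fin n → Fin n → Bool) (hsymm : ∀ x y, r x y = true →
    r y x = true) (d : Fin n → ℕ) (o : Fin n → List (Fin n)) (o' : Fin n → Fin n → List (Fin n))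
    (ho : ∀ y, (o y).Nodup ∧ (∀ x, x ∈ o y) ∧ ordB r (o y) = true ∧
      (o y).getLast? = some y ∧ ∀ x, dgB r (o y) x = d x)
    (ho' : ∀ x y, r x y = true → (x :: o' x y).Nodup ∧ (∀ z, z ∈ x :: o' x y) ∧
      ordB r (o' x y) = true ∧ (o' x y).getLast? = some y ∧ ∀ z, dgB r (x :: o' x y) z = d z)
    (s : ℕ) (f : Fin n → K → ℕ) (hf : ∀ x, SS s f x + d x ≤ s * Fintype.card K) :
    (∃ l : List (Fin n), l.Nodup ∧ (∀ x, x ∈ l) ∧ Ext s (fun a b => r a b = true) l f) ∨
    ((∀ x, SS s f x + d x = s * Fintype.card K) ∧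
      ∀ x y, r x y = true → ∀ i, f x i < s → f y i < s) := by
  by_cases h1 : ∃ y, SS s f y + d y < s * Fintype.card K
  · left
    obtain ⟨y, hy⟩ := h1
    obtain ⟨h2, h3, h4, h5, h6⟩ := ho y
    refine ⟨o y, h2, h3, ?_⟩
    have hne : o y ≠ [] := List.ne_nil_of_mem (h3 y)
    have hlast : (o y).getLast hne = y := by
      rw [List.getLast?_eq_getLast_of_ne_nil hne] at h5
      exact Option.some.inj h5
    refine greedy _ _ hne f (ordOK_of r _ h4) ?_ ?_
    · intro x _
      rw [dg_eq, h6]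
      exact hf x
    · rw [hlast, dg_eq, h6]
      exact hy
  · push Not at h1
    by_cases h2 : ∃ x y, r x y = true ∧ ∃ i, f x i < s ∧ s ≤ f y i
    · left
      obtain ⟨x, y, hxy, i, hi, hi'⟩ := h2
      obtain ⟨h2, h3, h4, h5, h6⟩ := ho' x y hxy
      refine ⟨x :: o' x y, h2, h3, ?_⟩
      have hne : o' x y ≠ [] := by
        intro h
        rw [h] at h5
        exact absurd h5 (by simp)
      have hlast : (o' x y).getLast hne = y := by
        rw [List.getLast?_eq_getLast_of_ne_nil hne] at h5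
        exact Option.some.inj h5
      refine greedy' _ x _ hne f (ordOK_of r _ h4) ?_ ?_ i hi ?_
      · intro z _
        rw [dg_eq, h6]
        exact hf z
      · rw [hlast]
        exact hsymm x y hxy
      · rw [hlast]
        exact hi'
    · right
      push Not at h2
      refine ⟨fun x => le_antisymm (hf x) (h1 x), fun x y hxy i hi => ?_⟩
      exact h2 x y hxy i hi

end Q102.RG
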