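import Pool.Agent.Q102.RG.Small

/-!
# The diamond and the house can be coloured: the sharp case
-/

set_option autoImplicit false

namespace Q102.RG

open Classical

variable {K : Type}

theorem dia_sharp [Fintype K] (f : Fin 4 → K → ℕ) (c c' : K) (hc : c ≠ c') (h1 : f 1 c = 0)
    (h0 : f 0 c ≤ 1) (h2 : f 2 c' = 1) (h3 : f 3 c' = 1) :
    Ext 2 (fun a b => dia a b = true) [0, 2, 3, 1] f := by
  have e20 : dia 2 0 = true := by decide
  have e30 : dia 3 0 = true := by decide
  have e32 : dia 3 2 = false := by decide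
  have e10 : dia 1 0 = true := by decide
  have e12 : dia 1 2 = true := by decide
  have e13 : dia 1 3 = true := by decide
  refine ⟨c, by omega, c', ?_, c', ?_, c, ?_, trivial⟩
  · simp [e20, hc.symm, h2]
  · simp [e30, e32, hc.symm, h3]
  · simp [e10, e12, e13, hc, h1]

theorem hou_sharpA [Fintype K] (f : Fin 5 → K → ℕ) (c c' : K) (hc : c ≠ c') (h0 : f 0 c = 0)
    (h1 : f 1 c = 0) (h2 : f 2 c' = 1) (h3 : f 3 c = 1) (h4 : f 4 c' = 1) :
    Ext 2 (fun a b => hou a b = true) [3, 4, 2, 0, 1] f := by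
  have e43 : hou 4 3 = true := by decide
  have e23 : hou 2 3 = false := by decide
  have e24 : hou 2 4 = false := by decide
  have e03 : hou 0 3 = true := by decide
  have e04 : hou 0 4 = false := by decide
  have e02 : hou 0 2 = true := by decide
  have e13 : hou 1 3 = false := by decide
  have e14 : hou 1 4 = true := by decide
  have e12 : hou 1 2 = true := by decide
  have e10 : hou 1 0 = true := by decide
  refine ⟨c, by omega, c', ?_, c', ?_, c, ?_, c, ?_, trivial⟩
  · simp [e43, hc.symm, h4]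
  · simp [e23, e24, h2]
  · simp [e03, e04, e02, hc, h0]
  · simp [e13, e14, e12, e10, hc, h1]

theorem hou_sharpB [Fintype K] (f : Fin 5 → K → ℕ) (c c' : K) (hc : c ≠ c') (h0 : f 0 c = 0)
    (h1 : f 1 c' = 0) (h2 : f 2 c = 1) (h3 : f 3 c' = 1) (h4 : f 4 c = 1) :
    Ext 2 (fun a b => hou a b = true) [3, 4, 2, 0, 1] f := by
  have e43 : hou 4 3 = true := by decide
  have e23 : hou 2 3 = false := by decide
  have e24 : hou 2 4 = false := by decide
  have e03 : hou 0 3 = true := by decide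
  have e04 : hou 0 4 = false := by decide
  have e02 : hou 0 2 = true := by decide
  have e13 : hou 1 3 = false := by decide
  have e14 : hou 1 4 = true := by decide
  have e12 : hou 1 2 = true := by decide
  have e10 : hou 1 0 = true := by decide
  refine ⟨c', by omega, c, ?_, c, ?_, c, ?_, c', ?_, trivial⟩
  · simp [e43, hc, h4]
  · simp [e23, e24, h2]
  · simp [e03, e04, e02, hc, h0]
  · simp [e13, e14, e12, e10, hc.symm, h1]

/-- In the sharp case there are exactly two free colours. -/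
theorem two_colours [Fintype K] {n : ℕ} (f : Fin n → K → ℕ) (d : Fin n → ℕ)
    (hf : ∀ x, SS 2 f x + d x = 2 * Fintype.card K) (u v : Fin n) (hu : d u = 3) (hv : d v = 2)
    (hs : ∀ x y : Fin n, ∀ i, f x i < 2 → f y i < 2) :
    ∃ p r : K, p ≠ r ∧ ∀ x, f x p ≤ 1 ∧ f x r ≤ 1 ∧ f x p + f x r + d x = 4 := by
  set S : Finset K := Finset.univ.filter fun i => f u i < 2 with hS
  have hmem : ∀ x i, i ∈ S ↔ f x i < 2 := by
    intro x i
    rw [hS, Finset.mem_filter]
    exact ⟨fun h => hs u x i h.2, fun h => ⟨Finset.mem_univ _, hs x u i h⟩⟩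
  have hsum : ∀ x, ∑ i ∈ S, (2 - f x i) = d x := by
    intro x
    have h1 : ∑ i, (min 2 (f x i) + (if i ∈ S then 2 - f x i else 0)) = ∑ i : K, 2 := by
      refine Finset.sum_congr rfl fun i _ => ?_
      by_cases h : i ∈ S
      · rw [if_pos h]
        have := (hmem x i).1 h
        omega
      · rw [if_neg h]
        have : ¬ f x i < 2 := fun h' => h ((hmem x i).2 h')
        omega
    rw [Finset.sum_add_distrib, Finset.sum_const, smul_eq_mul, Finset.card_univ,
      Finset.sum_ite_mem, Finset.univ_inter] at h1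
    have h2 := hf x
    unfold SS at h2
    omega
  have hle : S.card ≤ 2 := by
    rw [← hv, ← hsum v, Finset.card_eq_sum_ones]
    refine Finset.sum_le_sum fun i hi => ?_
    have := (hmem v i).1 hi
    omega
  have hge : 3 ≤ S.card * 2 := by
    rw [← hu, ← hsum u, ← smul_eq_mul, ← Finset.sum_const]
    refine Finset.sum_le_sum fun i _ => ?_
    omega
  obtain ⟨p, r, hpr, hSpr⟩ := Finset.card_eq_two.1 (by omega : S.card = 2)
  refine ⟨p, r, hpr, fun x => ?_⟩
  have h1 := (hmem x p).1 (by rw [hSpr]; simp)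
  have h2 := (hmem x r).1 (by rw [hSpr]; simp)
  have h3 := hsum x
  rw [hSpr, Finset.sum_pair hpr] at h3
  omega

theorem dia_ext2 [Fintype K] (f : Fin 4 → K → ℕ)
    (hf : ∀ x, SS 2 f x + dgB dia [0, 1, 2, 3] x ≤ 2 * Fintype.card K) :
    ∃ l : List (Fin 4), l.Nodup ∧ (∀ x, x ∈ l) ∧ Ext 2 (fun a b => dia a b = true) l f := by
  rcases reduce dia dia_symm _ ord4 ord4' ord4_ok ord4'_ok 2 f hf with h | ⟨h1, h2⟩
  · exact h
  have hs : ∀ x y : Fin 4, ∀ i, f x i < 2 → f y i < 2 := by
    intro x y i hi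
    have h3 : f 0 i < 2 := by
      fin_cases x
      · exact hi
      · exact h2 1 0 (by decide) i hi
      · exact h2 2 0 (by decide) i hi
      · exact h2 3 0 (by decide) i hi
    fin_cases y
    · exact h3
    · exact h2 0 1 (by decide) i h3
    · exact h2 0 2 (by decide) i h3
    · exact h2 0 3 (by decide) i h3
  obtain ⟨p, r, hpr, h3⟩ := two_colours f _ h1 0 2 (by decide) (by decide) hs
  have d0 : dgB dia [0, 1, 2, 3] 0 = 3 := by decide
  have d1 : dgB dia [0, 1, 2, 3] 1 = 3 := by decide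
  have d2 : dgB dia [0, 1, 2, 3] 2 = 2 := by decide
  have d3 : dgB dia [0, 1, 2, 3] 3 = 2 := by decide
  have a0 := h3 0
  have a1 := h3 1
  have a2 := h3 2
  have a3 := h3 3
  rw [d0] at a0
  rw [d1] at a1
  rw [d2] at a2
  rw [d3] at a3
  refine ⟨[0, 2, 3, 1], by decide, by decide, ?_⟩
  rcases Nat.eq_zero_or_pos (f 1 p) with h4 | h4
  · exact dia_sharp f p r hpr h4 (by omega) (by omega) (by omega)
  · exact dia_sharp f r p hpr.symm (by omega) (by omega) (by omega) (by omega)

theorem hou_ext2 [Fintype K] (f : Fin 5 → K → ℕ)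
    (hf : ∀ x, SS 2 f x + dgB hou [0, 1, 2, 3, 4] x ≤ 2 * Fintype.card K) :
    ∃ l : List (Fin 5), l.Nodup ∧ (∀ x, x ∈ l) ∧ Ext 2 (fun a b => hou a b = true) l f := by
  rcases reduce hou hou_symm _ ord5 ord5' ord5_ok ord5'_ok 2 f hf with h | ⟨h1, h2⟩
  · exact h
  have hs : ∀ x y : Fin 5, ∀ i, f x i < 2 → f y i < 2 := by
    intro x y i hi
    have h3 : f 0 i < 2 := by
      fin_cases x
      · exact hi
      · exact h2 1 0 (by decide) i hi
      · exact h2 2 0 (by decide) i hi
      · exact h2 3 0 (by decide) i hi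
      · exact h2 1 0 (by decide) i (h2 4 1 (by decide) i hi)
    fin_cases y
    · exact h3
    · exact h2 0 1 (by decide) i h3
    · exact h2 0 2 (by decide) i h3
    · exact h2 0 3 (by decide) i h3
    · exact h2 1 4 (by decide) i (h2 0 1 (by decide) i h3)
  obtain ⟨p, r, hpr, h3⟩ := two_colours f _ h1 0 2 (by decide) (by decide) hs
  have d0 : dgB hou [0, 1, 2, 3, 4] 0 = 3 := by decide
  have d1 : dgB hou [0, 1, 2, 3, 4] 1 = 3 := by decide
  have d2 : dgB hou [0, 1, 2, 3, 4] 2 = 2 := by decide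
  have d3 : dgB hou [0, 1, 2, 3, 4] 3 = 2 := by decide
  have d4 : dgB hou [0, 1, 2, 3, 4] 4 = 2 := by decide
  have a0 := h3 0
  have a1 := h3 1
  have a2 := h3 2
  have a3 := h3 3
  have a4 := h3 4
  rw [d0] at a0
  rw [d1] at a1
  rw [d2] at a2
  rw [d3] at a3
  rw [d4] at a4
  refine ⟨[3, 4, 2, 0, 1], by decide, by decide, ?_⟩
  rcases Nat.eq_zero_or_pos (f 0 p) with h4 | h4 <;> rcases Nat.eq_zero_or_pos (f 1 p) with h5 | h5
  · exact hou_sharpA f p r hpr h4 h5 (by omega) (by omega) (by omega)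
  · exact hou_sharpB f p r hpr h4 (by omega) (by omega) (by omega) (by omega)
  · exact hou_sharpB f r p hpr.symm (by omega) h5 (by omega) (by omega) (by omega)
  · exact hou_sharpA f r p hpr.symm (by omega) (by omega) (by omega) (by omega) (by omega)

theorem SS_one_congr [Fintype K] {n : ℕ} (f : Fin n → K → ℕ) (x y : Fin n)
    (h : ∀ i, f x i < 1 → f y i < 1) (h' : ∀ i, f y i < 1 → f x i < 1) :
    SS 1 f x = SS 1 f y := by
  unfold SS
  refine Finset.sum_congr rfl fun i _ => ?_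
  have h1 := h i
  have h2 := h' i
  omega

theorem dia_ext1 [Fintype K] (f : Fin 4 → K → ℕ)
    (hf : ∀ x, SS 1 f x + dgB dia [0, 1, 2, 3] x ≤ 1 * Fintype.card K) :
    ∃ l : List (Fin 4), l.Nodup ∧ (∀ x, x ∈ l) ∧ Ext 1 (fun a b => dia a b = true) l f := by
  rcases reduce dia dia_symm _ ord4 ord4' ord4_ok ord4'_ok 1 f hf with h | ⟨h1, h2⟩
  · exact h
  exfalso
  have h3 := SS_one_congr f 0 2 (h2 0 2 (by decide)) (h2 2 0 (by decide))
  have d0 : dgB dia [0, 1, 2, 3] 0 = 3 := by decide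
  have d2 : dgB dia [0, 1, 2, 3] 2 = 2 := by decide
  have a0 := h1 0
  have a2 := h1 2
  omega

theorem hou_ext1 [Fintype K] (f : Fin 5 → K → ℕ)
    (hf : ∀ x, SS 1 f x + dgB hou [0, 1, 2, 3, 4] x ≤ 1 * Fintype.card K) :
    ∃ l : List (Fin 5), l.Nodup ∧ (∀ x, x ∈ l) ∧ Ext 1 (fun a b => hou a b = true) l f := by
  rcases reduce hou hou_symm _ ord5 ord5' ord5_ok ord5'_ok 1 f hf with h | ⟨h1, h2⟩
  · exact h
  exfalso
  have h3 := SS_one_congr f 0 2 (h2 0 2 (by decide)) (h2 2 0 (by decide))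
  have d0 : dgB hou [0, 1, 2, 3, 4] 0 = 3 := by decide
  have d2 : dgB hou [0, 1, 2, 3, 4] 2 = 2 := by decide
  have a0 := h1 0
  have a2 := h1 2
  omega

end Q102.RG
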